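import Mathlib

set_option autoImplicit false

namespace Pool.Agent.Helper90.LSp

open Set

/-- `Ω` is (order isomorphic to) the first uncountable ordinal. -/
class W1 (Ω : Type) [LinearOrder Ω] : Prop where
  wf : WellFoundedLT Ω
  cnt : ∀ a : Ω, (Iio a).Countable
  unc : ¬ (univ : Set Ω).Countable

variable {Ω : Type} [LinearOrder Ω] [W1 Ω]

instance : WellFoundedLT Ω := W1.wf

theorem Iic_countable (a : Ω) : (Iic a).Countable := by
  have : Iic a = insert a (Iio a) := by
    ext x; simp [le_iff_eq_or_lt]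
  rw [this]; exact (W1.cnt a).insert a

theorem exists_gt_of_countable {A : Set Ω} (hA : A.Countable) : ∃ b, ∀ a ∈ A, a < b := by
  by_contra h
  push Not at h
  apply W1.unc (Ω := Ω)
  have : (univ : Set Ω) ⊆ ⋃ a ∈ A, Iic a := by
    intro x _
    obtain ⟨a, ha, hx⟩ := h x
    simp only [mem_iUnion]
    exact ⟨a, ha, hx⟩
  exact (hA.biUnion fun a _ => Iic_countable a).mono this

instance : Nonempty Ω := by
  obtain ⟨b, _⟩ := exists_gt_of_countable (Ω := Ω) (A := ∅) countable_empty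
  exact ⟨b⟩

instance : NoMaxOrder Ω := ⟨fun a => by
  obtain ⟨b, hb⟩ := exists_gt_of_countable (Ω := Ω) (A := {a}) (countable_singleton a)
  exact ⟨b, hb a rfl⟩⟩

theorem exists_gt_seq (u : ℕ → Ω) : ∃ b, ∀ n, u n < b := by
  obtain ⟨b, hb⟩ := exists_gt_of_countable (countable_range u)
  exact ⟨b, fun n => hb _ ⟨n, rfl⟩⟩

theorem exists_C (b : Ω) : ∃ C : Set Ω, C ⊆ Iio b ∧ (∀ a < b, (C ∩ Iio a).Finite) ∧
    (∀ a < b, ∃ g ∈ C, a ≤ g) := by
  rcases (Iio b).eq_empty_or_nonempty with h | h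
  · refine ⟨∅, empty_subset _, fun a _ => by simp, fun a ha => ?_⟩
    exact absurd (show a ∈ Iio b from ha) (by rw [h]; exact notMem_empty _)
  · obtain ⟨u, hu⟩ := (W1.cnt b).exists_eq_range h
    -- running maximum
    let m : ℕ → Ω := fun n => (Finset.range (n + 1)).sup' ⟨0, by simp⟩ u
    have hmu : ∀ n, u n ≤ m n := fun n =>
      Finset.le_sup' u (by simp)
    have hm : ∀ n, m n ∈ Iio b := by
      intro n
      refine (Finset.sup'_lt_iff _).2 ?_
      intro i _
      have : u i ∈ Iio b := by rw [hu]; exact ⟨i, rfl⟩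
      exact this
    have hmono : Monotone m := by
      intro i j hij
      apply Finset.sup'_mono
      intro x hx
      simp only [Finset.mem_range] at hx ⊢
      omega
    refine ⟨range m, ?_, ?_, ?_⟩
    · rintro x ⟨n, rfl⟩; exact hm n
    · intro a ha
      have : a ∈ range u := by rw [← hu]; exact ha
      obtain ⟨i, rfl⟩ := this
      apply ((Finset.range i).finite_toSet.image m).subset
      rintro x ⟨⟨n, rfl⟩, hx⟩
      refine ⟨n, ?_, rfl⟩
      by_contra hn
      simp only [Finset.coe_range, mem_Iio, not_lt] at hn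
      have h1 := hmono hn
      have h2 := hmu i
      exact absurd (lt_of_lt_of_le hx (h2.trans h1)) (lt_irrefl _)
    · intro a ha
      have : a ∈ range u := by rw [← hu]; exact ha
      obtain ⟨i, rfl⟩ := this
      exact ⟨m i, ⟨i, rfl⟩, hmu i⟩

/-- the ladder at `b` -/
noncomputable def Cs (b : Ω) : Set Ω := Classical.choose (exists_C b)

theorem Cs_lt {b x : Ω} (h : x ∈ Cs b) : x < b := (Classical.choose_spec (exists_C b)).1 h

theorem Cs_fin {a b : Ω} (h : a < b) : (Cs b ∩ Iio a).Finite :=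
  (Classical.choose_spec (exists_C b)).2.1 a h

theorem Cs_cof {a b : Ω} (h : a < b) : ∃ g ∈ Cs b, a ≤ g :=
  (Classical.choose_spec (exists_C b)).2.2 a h

open Classical in
/-- `C_b ∩ a` as a finite set -/
noncomputable def M (a b : Ω) : Finset Ω := if h : a < b then (Cs_fin h).toFinset else ∅

theorem mem_M {a b x : Ω} (h : a < b) : x ∈ M a b ↔ x ∈ Cs b ∧ x < a := by
  simp [M, h]

open Classical in
/-- the first step of the walk from `b` to `a` -/
noncomputable def nxt (a b : Ω) : Ω :=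
  if h : ({g | g ∈ Cs b ∧ a ≤ g}).Nonempty then wellFounded_lt.min _ h else b

theorem nxt_spec {a b : Ω} (h : a < b) : nxt a b ∈ Cs b ∧ a ≤ nxt a b ∧
    ∀ g ∈ Cs b, a ≤ g → nxt a b ≤ g := by
  have hne : ({g | g ∈ Cs b ∧ a ≤ g}).Nonempty := by
    obtain ⟨g, hg, hag⟩ := Cs_cof h
    exact ⟨g, hg, hag⟩
  have hn : nxt a b = wellFounded_lt.min _ hne := by
    simp only [nxt, hne, dite_true]
  have h1 := wellFounded_lt.min_mem _ hne
  rw [← hn] at h1
  refine ⟨h1.1, h1.2, fun g hg hag => ?_⟩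
  rw [hn]
  exact not_lt.1 (wellFounded_lt.not_lt_min _ (show g ∈ {g | g ∈ Cs b ∧ a ≤ g} from ⟨hg, hag⟩))

theorem nxt_lt {a b : Ω} (h : a < b) : nxt a b < b := Cs_lt (nxt_spec h).1

theorem le_nxt {a b : Ω} (h : a < b) : a ≤ nxt a b := (nxt_spec h).2.1

/-- if `C_c` has no element in `[a, b)` then the walks agree -/
theorem nxt_eq {a b c : Ω} (hab : a ≤ b) (hbc : b < c) (h : ∀ g ∈ Cs c, g < b → g < a) :
    nxt a c = nxt b c := by
  have hac := lt_of_le_of_lt hab hbc
  apply le_antisymm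
  · exact (nxt_spec hac).2.2 _ (nxt_spec hbc).1 (hab.trans (le_nxt hbc))
  · refine (nxt_spec hbc).2.2 _ (nxt_spec hac).1 ?_
    by_contra hlt
    push Not at hlt
    have := h _ (nxt_spec hac).1 hlt
    exact absurd (le_nxt hac) (not_le.2 this)

theorem M_eq {a b c : Ω} (hab : a ≤ b) (hbc : b < c) (h : ∀ g ∈ Cs c, g < b → g < a) :
    M a c = M b c := by
  have hac := lt_of_le_of_lt hab hbc
  ext x
  rw [mem_M hac, mem_M hbc]
  constructor
  · rintro ⟨h1, h2⟩; exact ⟨h1, lt_of_lt_of_le h2 hab⟩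
  · rintro ⟨h1, h2⟩; exact ⟨h1, h x h1 h2⟩

open Classical in
/-- Todorcevic's function `ρ₁` -/
noncomputable def e (a : Ω) : Ω → ℕ :=
  (wellFounded_lt (α := Ω)).fix
    (fun b ih => if h : a < b then max (M a b).card (ih (nxt a b) (nxt_lt h)) else 0)

theorem e_eq {a b : Ω} (h : a < b) : e a b = max (M a b).card (e a (nxt a b)) := by
  unfold e
  rw [WellFounded.fix_eq]; simp [h]

theorem e_ge {a b : Ω} (h : b ≤ a) : e a b = 0 := by
  unfold e
  rw [WellFounded.fix_eq]; simp [not_lt.2 h]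

theorem e_self (a : Ω) : e a a = 0 := e_ge le_rfl

open Classical in
/-- the lower trace -/
noncomputable def L (a : Ω) : Ω → Finset Ω :=
  (wellFounded_lt (α := Ω)).fix
    (fun b ih => if h : a < b then
      (ih (nxt a b) (nxt_lt h) ∪ M a b).filter (fun x => ∀ y ∈ M a b, y ≤ x) else ∅)

theorem mem_L {a b x : Ω} (h : a < b) :
    x ∈ L a b ↔ (x ∈ L a (nxt a b) ∨ x ∈ M a b) ∧ ∀ y ∈ M a b, y ≤ x := by
  unfold L
  rw [WellFounded.fix_eq]; simp [h]

theorem L_ge {a b : Ω} (h : b ≤ a) : L a b = ∅ := by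
  unfold L
  rw [WellFounded.fix_eq]; simp [not_lt.2 h]

theorem L_lt (a : Ω) : ∀ b : Ω, ∀ x ∈ L a b, x < a := by
  intro b
  induction b using WellFoundedLT.induction with
  | _ b ih =>
    intro x hx
    by_cases h : a < b
    · rw [mem_L h] at hx
      rcases hx.1 with h1 | h1
      · exact ih _ (nxt_lt h) x h1
      · exact ((mem_M h).1 h1).2
    · rw [L_ge (not_lt.1 h)] at hx
      simp at hx

theorem L_lower {a b x y : Ω} (h : a < b) (hx : x ∈ L a b) (hy : y ∈ Cs b) (hya : y < a) :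
    y ≤ x := ((mem_L h).1 hx).2 y ((mem_M h).2 ⟨hy, hya⟩)

theorem L_nonempty {a b y : Ω} (h : a < b) (hy : y ∈ Cs b) (hya : y < a) :
    (L a b).Nonempty := by
  have hne : (M a b).Nonempty := ⟨y, (mem_M h).2 ⟨hy, hya⟩⟩
  refine ⟨(M a b).max' hne, ?_⟩
  rw [mem_L h]
  exact ⟨Or.inr (Finset.max'_mem _ hne), fun z hz => Finset.le_max' _ _ hz⟩

/-- The concatenation lemma for the lower trace. -/
theorem L_concat {a b y : Ω} (hab : a < b) (hy : y ∈ Cs b) (hya : y < a) :
    ∀ c : Ω, b ≤ c → (∀ x ∈ L b c, x < y) → L a c = L b c ∪ L a b := by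
  intro c
  induction c using WellFoundedLT.induction with
  | _ c ih =>
    intro hbc hL
    rcases eq_or_lt_of_le hbc with rfl | hbc'
    · rw [L_ge le_rfl]; simp
    · have hac := hab.trans hbc'
      -- all elements of M b c are < y
      have hM : ∀ g ∈ M b c, g < y := by
        intro g hg
        have hne : (M b c).Nonempty := ⟨g, hg⟩
        have hmax : (M b c).max' hne ∈ L b c := by
          rw [mem_L hbc']
          exact ⟨Or.inr (Finset.max'_mem _ hne), fun z hz => Finset.le_max' _ _ hz⟩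
        exact lt_of_le_of_lt (Finset.le_max' _ _ hg) (hL _ hmax)
      have hC : ∀ g ∈ Cs c, g < b → g < a := fun g hg hgb =>
        (hM g ((mem_M hbc').2 ⟨hg, hgb⟩)).trans hya
      have hMe : M a c = M b c := M_eq hab.le hbc' hC
      have hne : nxt a c = nxt b c := nxt_eq hab.le hbc' hC
      have hL' : ∀ x ∈ L b (nxt b c), x < y := by
        intro x hx
        by_cases hxM : ∀ z ∈ M b c, z ≤ x
        · exact hL x ((mem_L hbc').2 ⟨Or.inl hx, hxM⟩)
        · push Not at hxM
          obtain ⟨z, hz, hxz⟩ := hxM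
          exact hxz.trans (hM z hz)
      have ih' := ih (nxt b c) (nxt_lt hbc') (le_nxt hbc') hL'
      ext x
      rw [mem_L hac, hMe, hne, ih', Finset.mem_union, Finset.mem_union, mem_L hbc']
      constructor
      · rintro ⟨(h1 | h1) | h1, h2⟩
        · exact Or.inl ⟨Or.inl h1, h2⟩
        · exact Or.inr h1
        · exact Or.inl ⟨Or.inr h1, h2⟩
      · rintro (⟨h1 | h1, h2⟩ | h1)
        · exact ⟨Or.inl (Or.inl h1), h2⟩
        · exact ⟨Or.inr h1, h2⟩
        · refine ⟨Or.inl (Or.inr h1), fun z hz => ?_⟩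
          exact ((hM z hz).trans_le (L_lower hab h1 hy hya)).le

end Pool.Agent.Helper90.LSp
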