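import Pool.Agent.Helper90.LSp.Basic

set_option autoImplicit false

namespace Pool.Agent.Helper90.LSp

open Set

variable {Ω : Type} [LinearOrder Ω] [W1 Ω]

theorem local_global (P : Ω → Prop) (b : Ω)
    (h : ∀ δ ≤ b, (∃ d, d < δ) → ∃ d < δ, {a | d ≤ a ∧ a < δ ∧ ¬ P a}.Finite) :
    {a | a < b ∧ ¬ P a}.Finite := by
  have key : ∀ δ : Ω, δ ≤ b → {a | a < δ ∧ ¬ P a}.Finite := by
    intro δ
    induction δ using WellFoundedLT.induction with
    | _ δ ih =>
      intro hδ
      by_cases hd : ∃ d, d < δ
      · obtain ⟨d, hd, hfin⟩ := h δ hδ hd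
        have := (ih d hd (hd.le.trans hδ)).union hfin
        apply this.subset
        rintro a ⟨ha, hPa⟩
        rcases lt_or_ge a d with h1 | h1
        · exact Or.inl ⟨h1, hPa⟩
        · exact Or.inr ⟨h1, ha, hPa⟩
      · push Not at hd
        convert finite_empty
        ext a
        simp only [mem_setOf_eq, mem_empty_iff_false, iff_false, not_and]
        intro ha
        exact absurd ha (not_lt.2 (hd a))
  exact key b le_rfl

/-- a bound below `δ` for the ladder elements below `δ` -/
theorem exists_below {δ b : Ω} (hb : δ < b) (hd : ∃ d, d < δ) :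
    ∃ d < δ, ∀ g ∈ Cs b, g < δ → g ≤ d := by
  obtain ⟨d0, hd0⟩ := hd
  by_cases hne : (M δ b).Nonempty
  · refine ⟨(M δ b).max' hne, ?_, ?_⟩
    · exact ((mem_M hb).1 (Finset.max'_mem _ hne)).2
    · intro g hg hgd
      exact Finset.le_max' _ _ ((mem_M hb).2 ⟨hg, hgd⟩)
  · refine ⟨d0, hd0, ?_⟩
    intro g hg hgd
    exact absurd ⟨g, (mem_M hb).2 ⟨hg, hgd⟩⟩ hne

theorem e_finite_to_one : ∀ (b : Ω) (n : ℕ), {a | a < b ∧ e a b ≤ n}.Finite := by
  intro b
  induction b using WellFoundedLT.induction with
  | _ b ih =>
    intro n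
    have := local_global (fun a => n < e a b) b ?_
    · simpa only [not_lt] using this
    intro δ hδ hd
    rcases eq_or_lt_of_le hδ with rfl | hδb
    · -- δ = b
      by_cases hM : ∃ d < δ, n < (M d δ).card
      · obtain ⟨d, hdδ, hcard⟩ := hM
        refine ⟨d, hdδ, ?_⟩
        convert finite_empty
        ext a
        simp only [mem_setOf_eq, mem_empty_iff_false, iff_false, not_and, not_not]
        intro hda haδ
        rw [e_eq haδ]
        have hsub : M d δ ⊆ M a δ := by
          intro x hx
          rw [mem_M haδ]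
          have := (mem_M hdδ).1 hx
          exact ⟨this.1, this.2.trans_le hda⟩
        exact lt_of_lt_of_le (lt_of_lt_of_le hcard (Finset.card_le_card hsub)) (le_max_left _ _)
      · push Not at hM
        -- there is a maximal element below δ
        have hmax : ∃ d < δ, ∀ a < δ, a ≤ d := by
          by_contra hno
          push Not at hno
          have hk : ∀ k : ℕ, ∃ d < δ, k ≤ (M d δ).card := by
            intro k
            induction k with
            | zero => obtain ⟨d, hd⟩ := hd; exact ⟨d, hd, Nat.zero_le _⟩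
            | succ k ihk =>
              obtain ⟨d, hdδ, hk⟩ := ihk
              obtain ⟨g, hg, hdg⟩ := Cs_cof hdδ
              obtain ⟨d', hd'δ, hgd'⟩ := hno g (Cs_lt hg)
              refine ⟨d', hd'δ, ?_⟩
              have hsub : insert g (M d δ) ⊆ M d' δ := by
                intro x hx
                rw [Finset.mem_insert] at hx
                rw [mem_M hd'δ]
                rcases hx with rfl | hx
                · exact ⟨hg, hgd'⟩
                · have := (mem_M hdδ).1 hx
                  exact ⟨this.1, this.2.trans_le (hdg.trans hgd'.le)⟩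
              have hnot : g ∉ M d δ := by
                rw [mem_M hdδ]
                rintro ⟨_, h2⟩
                exact absurd h2 (not_lt.2 hdg)
              have := Finset.card_le_card hsub
              rw [Finset.card_insert_of_notMem hnot] at this
              omega
          obtain ⟨d, hdδ, hk⟩ := hk (n + 1)
          have := hM d hdδ
          omega
        obtain ⟨d, hdδ, hdmax⟩ := hmax
        refine ⟨d, hdδ, (finite_singleton d).subset ?_⟩
        rintro a ⟨h1, h2, _⟩
        exact le_antisymm (hdmax a h2) h1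
    · -- δ < b
      obtain ⟨d, hdδ, hdg⟩ := exists_below hδb hd
      refine ⟨d, hdδ, ((finite_singleton d).union (ih (nxt δ b) (nxt_lt hδb) n)).subset ?_⟩
      rintro a ⟨h1, h2, h3⟩
      rcases eq_or_lt_of_le h1 with rfl | h1
      · exact Or.inl rfl
      · refine Or.inr ⟨lt_of_lt_of_le h2 (le_nxt hδb), ?_⟩
        have hn : nxt a b = nxt δ b := nxt_eq h2.le hδb fun g hg hgδ =>
          lt_of_le_of_lt (hdg g hg hgδ) h1
        rw [not_lt, e_eq (h2.trans hδb), hn] at h3
        exact (le_max_right _ _).trans h3

theorem e_coherent : ∀ (c b : Ω), b < c → {a | a < b ∧ e a b ≠ e a c}.Finite := by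
  intro c
  induction c using WellFoundedLT.induction with
  | _ c ih =>
    intro b hbc
    have := local_global (fun a => e a b = e a c) b ?_
    · exact this
    intro δ hδ hd
    have hδc := lt_of_le_of_lt hδ hbc
    obtain ⟨d, hdδ, hdg⟩ := exists_below hδc hd
    have f1 := e_finite_to_one (nxt δ c) (M δ c).card
    have f2 : {a | a < δ ∧ e a δ ≠ e a (nxt δ c)}.Finite := by
      rcases eq_or_lt_of_le (le_nxt hδc) with h | h
      · rw [← h]; simp
      · exact ih _ (nxt_lt hδc) δ h
    have f3 : {a | a < δ ∧ e a δ ≠ e a b}.Finite := by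
      rcases eq_or_lt_of_le hδ with h | h
      · rw [h]; simp
      · exact ih b hbc δ h
    refine ⟨d, hdδ, ((((finite_singleton d).union f1).union f2).union f3).subset ?_⟩
    rintro a ⟨h1, h2, h3⟩
    rcases eq_or_lt_of_le h1 with rfl | h1
    · exact Or.inl (Or.inl (Or.inl rfl))
    · by_contra hcon
      simp only [mem_union, not_or, mem_setOf_eq, not_and, not_not, not_le] at hcon
      obtain ⟨⟨⟨_, c1⟩, c2⟩, c3⟩ := hcon
      have hn : nxt a c = nxt δ c := nxt_eq h2.le hδc fun g hg hgδ =>
        lt_of_le_of_lt (hdg g hg hgδ) h1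
      have hM : M a c = M δ c := M_eq h2.le hδc fun g hg hgδ =>
        lt_of_le_of_lt (hdg g hg hgδ) h1
      have d1 := c1 (h2.trans_le (le_nxt hδc))
      have d2 := c2 h2
      have d3 := c3 h2
      apply h3
      rw [e_eq (h2.trans hδc), hn, hM, max_eq_right d1.le, ← d2, d3]

end Pool.Agent.Helper90.LSp
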