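import Pool.Agent.Helper90.LSp.Step

set_option autoImplicit false
set_option linter.unusedSectionVars false

namespace Pool.Agent.Helper90.LSp

open Set Filter Topology

variable {Ω : Type} [LinearOrder Ω] [W1 Ω]
variable {S : Set (Ω → ℝ)} {B : Set Ω} {H : Filter (Ω → ℝ)}
variable {hH : HF S B H} {P : Pt Ω × Pt Ω → Prop} {mv : Pt Ω × Pt Ω → Finset Ω}
  {ε : ℝ} {R : Finset Ω} {v : Ω → ℕ}

open Classical in
theorem base (hmv : ∀ q, ∀ ξ ∈ mv q, q.1.1 ≤ ξ)
    (hP : ∃ᶠ q in (KF hH).curry (KF hH), P q)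
    (hPS : ∀ q, P q → q.1.2 ∈ S)
    (hPb : ∀ q, P q → ∃ b ∈ B, q.1.1 ≤ b ∧ ε < |q.1.2 b| ∧ ∀ x ∈ R, om b x = v x) :
    ∃ (N : Ω) (T : Finset (Ω → ℕ)) (F : Unit → Finset Ω) (ρ : Unit → Ω → ℕ),
      ∃ᶠ p in KF hH, YP hH P mv ε R v N T F ρ p := by
  have := KF_countable hH
  have := curry_countable (KF hH) (KF hH)
  have h1 : ∃ᶠ p in KF hH, ∃ p', P (p, p') := by
    rw [frequently_curry_iff] at hP
    exact hP.mono fun p hp => hp.exists
  obtain ⟨N0⟩ : Nonempty Ω := inferInstance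
  have key : ∃ᶠ p in KF hH, ∃ N < p.1, ∃ d ∈ {d : Finset (Ω → ℕ) × Finset Ω ×
      (Unit → Ω → ℕ) | (d.1 : Set (Ω → ℕ)) ⊆ etr N ∧ (d.2.1 : Set Ω) ⊆ Iio N ∧
      ∀ i, d.2.2 i ∈ etr N}, YP hH P mv ε R v N d.1 (fun _ => d.2.1) d.2.2 p := by
    refine (h1.and_eventually ((KF_limit hH).and (KF_gt hH N0))).mono ?_
    rintro ⟨δ, x⟩ ⟨⟨p', hp'⟩, hlim, hN0⟩
    simp only at hlim hN0
    have hxS := hPS _ hp'
    obtain ⟨b, hbB, hδb, hbig, hR⟩ := hPb _ hp'
    simp only at hxS hδb hbig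
    obtain ⟨N1, _, hN1δ, hN1⟩ := exists_bound_lt hlim
      ((e_fin_diff hδb).union (L δ b).finite_toSet) (by
        rintro z (hz | hz)
        · exact hz.1
        · exact L_lt _ _ z hz) hN0
    have h2 : ∃ᶠ q in (KF hH).curry (KF hH),
        ∃ T1 ∈ {T' : Finset (Ω → ℕ) | (T' : Set _) ⊆ etr N1}, P q ∧ Ty mv q N1 = T1 :=
      hP.mono fun q hq => ⟨Ty mv q N1, Ty_etr mv q N1, hq, rfl⟩
    obtain ⟨T1, _, hL1⟩ := freq_countable (countable_finsets (etr_countable N1)) h2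
    obtain ⟨N, hN1N, hNδ, T, _, hTe, hL, hG⟩ := claim hmv hlim hN1δ hL1
    have hLN : ∀ z ∈ L δ b, z < N := fun z hz => (hN1 z (Or.inr hz)).trans_le hN1N
    refine ⟨N, hNδ, (T, L δ b, fun _ => res N (fun z => e z b)), ⟨hTe, fun z hz => hLN z hz,
      fun i => mem_etr _ _⟩, hNδ, hL, hG, hxS, fun i => ⟨b, hbB, hδb, hbig, rfl, hLN, rfl,
      ?_, hR⟩⟩
    intro z hz hzδ
    by_contra hne
    exact absurd (hN1 z (Or.inl ⟨hzδ, Ne.symm hne⟩)) (not_lt.2 (hN1N.trans hz))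
  obtain ⟨N, d, _, h⟩ := stab hH (fun N' => cand_countable (ι := Unit) N') key
  exact ⟨N, d.1, _, d.2.2, h.mono fun p hp => hp.2⟩

/-- the inductive invariant -/
def Inv (hH : HF S B H) (P : Pt Ω × Pt Ω → Prop) (mv : Pt Ω × Pt Ω → Finset Ω)
    (ε : ℝ) (R : Finset Ω) (v : Ω → ℕ) (m : ℕ) : Prop :=
  ∃ (ι : Type) (_ : Finite ι) (N : Ω) (T : Finset (Ω → ℕ)) (F : ι → Finset Ω)
    (ρ : ι → Ω → ℕ) (c : ℕ → ι), (∃ᶠ p in KF hH, YP hH P mv ε R v N T F ρ p) ∧
    ∀ r ≤ m, (∃ z ∈ F (c r), (∀ y ∈ F (c r), y ≤ z) ∧ ∀ σ ∈ T, ρ (c r) z < σ z) ∧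
      ∀ σ ∈ T, oc σ (ρ (c r)) (F (c r)) = oc σ (ρ (c 0)) (F (c 0)) + r

theorem inv_all (hmv : ∀ q, ∀ ξ ∈ mv q, q.1.1 ≤ ξ)
    (hP : ∃ᶠ q in (KF hH).curry (KF hH), P q)
    (hPS : ∀ q, P q → q.1.2 ∈ S)
    (hPb : ∀ q, P q → ∃ b ∈ B, q.1.1 ≤ b ∧ ε < |q.1.2 b| ∧ ∀ x ∈ R, om b x = v x) (m : ℕ) :
    Inv hH P mv ε R v m := by
  classical
  induction m with
  | zero =>
    obtain ⟨N, T, F, ρ, h⟩ := base hmv hP hPS hPb
    obtain ⟨N', T', D, ρ', h1, h2, h3, h4, h5, h6, h7, h8⟩ := step hmv () true h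
    refine ⟨Option Unit, inferInstance, N', T', _, ρ', fun _ => none, h8, ?_⟩
    intro r hr
    have hr0 : r = 0 := by omega
    subst hr0
    refine ⟨⟨D.max' h2, ?_, ?_, ?_⟩, fun σ _ => by simp⟩
    · simp only [Option.elim_none]
      exact Finset.mem_union_right _ (Finset.max'_mem _ h2)
    · intro y hy
      simp only [Option.elim_none, Finset.mem_union] at hy
      rcases hy with hy | hy
      · obtain ⟨p, hp⟩ := h.exists
        obtain ⟨b, hb⟩ := hp.b ()
        exact (hb.Flt y hy).le.trans (h3 _ (Finset.max'_mem _ h2)).1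
      · exact Finset.le_max' _ _ hy
    · intro σ hσ
      have := h7 σ hσ _ (Finset.max'_mem _ h2)
      simpa using this
  | succ m ih =>
    obtain ⟨ι, hι, N, T, F, ρ, c, h, hc⟩ := ih
    obtain ⟨N1, T1, D1, ρ1, a1, a2, a3, a4, a5, a6, a7, a8⟩ := step hmv (c m) false h
    obtain ⟨N2, T2, D2, ρ2, b1, b2, b3, b4, b5, b6, b7, b8⟩ := step hmv none true a8
    simp only [Option.elim_none] at b8
    have hFN : ∀ i, ∀ y ∈ F i, y < N := by
      intro i y hy
      obtain ⟨p, hp⟩ := h.exists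
      obtain ⟨b, hb⟩ := hp.b i
      exact hb.Flt y hy
    have hTT : ∀ σ ∈ T2, res N1 σ ∈ T1 ∧ res N σ ∈ T := by
      intro σ hσ
      have h1 : res N1 σ ∈ T1 := by rw [← b4]; exact Finset.mem_image_of_mem _ hσ
      refine ⟨h1, ?_⟩
      rw [← a4, ← res_res a1]
      exact Finset.mem_image_of_mem _ h1
    have hρ2 : ∀ i, ∀ y < N, ρ2 (some (some i)) y = ρ i y := by
      intro i y hy
      have e1 : res N1 (ρ2 (some (some i))) y = ρ1 (some i) y := by rw [b5]
      have e2 : res N (ρ1 (some i)) y = ρ i y := by rw [a5]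
      rw [res_lt (hy.trans_le a1)] at e1
      rw [res_lt hy] at e2
      rw [e1, e2]
    have hρ2n : ∀ y < N1, ρ2 none y = ρ1 none y := by
      intro y hy
      have e1 : res N1 (ρ2 none) y = ρ1 none y := by rw [b6]
      rwa [res_lt hy] at e1
    have hρ2c : ∀ y < N, ρ2 none y = ρ (c m) y := by
      intro y hy
      have e2 : res N (ρ1 none) y = ρ (c m) y := by rw [a6]
      rw [hρ2n y (hy.trans_le a1), ← e2, res_lt hy]
    -- comparison of oscillations with the old ones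
    have hold : ∀ i, ∀ σ ∈ T2, oc σ (ρ2 (some (some i))) (F i) = oc (res N σ) (ρ i) (F i) := by
      intro i σ hσ
      apply oc_congr
      · intro y hy; exact (res_lt (hFN i y hy) σ).symm
      · intro y hy; exact hρ2 i y (hFN i y hy)
    let c' : ℕ → Option (Option ι) := fun r => if r ≤ m then some (some (c r)) else none
    refine ⟨Option (Option ι), inferInstance, N2, T2, _, ρ2, c', b8, ?_⟩
    intro r hr
    rcases Nat.lt_or_ge m r with hmr | hrm
    · have hr1 : r = m + 1 := by omega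
      subst hr1
      have hcr : c' (m + 1) = none := by simp [c']
      have hc0 : c' 0 = some (some (c 0)) := by simp [c']
      rw [hcr, hc0]
      simp only [Option.elim_none, Option.elim_some]
      constructor
      · refine ⟨D2.max' b2, Finset.mem_union_right _ (Finset.max'_mem _ b2), ?_, ?_⟩
        · intro y hy
          rw [Finset.mem_union, Finset.mem_union] at hy
          have hmx := (b3 _ (Finset.max'_mem _ b2)).1
          rcases hy with (hy | hy) | hy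
          · exact ((hFN _ y hy).le.trans a1).trans hmx
          · exact (a3 y hy).2.le.trans hmx
          · exact Finset.le_max' _ _ hy
        · intro σ hσ
          have := b7 σ hσ _ (Finset.max'_mem _ b2)
          simpa using this
      · intro σ hσ
        obtain ⟨⟨z, hz, hzmax, hzlt⟩, hoc⟩ := hc m le_rfl
        have hσT := (hTT σ hσ).2
        -- the last block
        have e1 : oc σ (ρ2 none) ((F (c m) ∪ D1) ∪ D2) = oc σ (ρ2 none) (F (c m) ∪ D1) + 1 := by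
          apply oc_append_gt (m := D1.max' a2)
          · intro x hx y hy
            rw [Finset.mem_union] at hx
            rcases hx with hx | hx
            · exact (hFN _ x hx).trans_le (a1.trans (b3 y hy).1)
            · exact (a3 x hx).2.trans_le (b3 y hy).1
          · exact Finset.mem_union_right _ (Finset.max'_mem _ a2)
          · intro x hx
            rw [Finset.mem_union] at hx
            rcases hx with hx | hx
            · exact (hFN _ x hx).le.trans (a3 _ (Finset.max'_mem _ a2)).1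
            · exact Finset.le_max' _ _ hx
          · have h1 := Finset.max'_mem _ a2
            have h2 := a7 _ (hTT σ hσ).1 _ h1
            simp only [Bool.false_eq_true, if_false] at h2
            rw [res_lt (a3 _ h1).2] at h2
            rw [h2, hρ2n _ (a3 _ h1).2]
          · exact b2
          · intro x hx
            have := b7 σ hσ x hx
            simpa using this
        have e2 : oc σ (ρ2 none) (F (c m) ∪ D1) = oc σ (ρ2 none) (F (c m)) := by
          apply oc_append_eq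
          · intro x hx y hy
            exact (hFN _ x hx).trans_le (a3 y hy).1
          · intro x hx
            have h2 := a7 _ (hTT σ hσ).1 _ hx
            simp only [Bool.false_eq_true, if_false] at h2
            rw [res_lt (a3 _ hx).2] at h2
            rw [h2, hρ2n _ (a3 _ hx).2]
        have e3 : oc σ (ρ2 none) (F (c m)) = oc (res N σ) (ρ (c m)) (F (c m)) := by
          apply oc_congr
          · intro y hy; exact (res_lt (hFN _ y hy) σ).symm
          · intro y hy; exact hρ2c y (hFN _ y hy)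
        rw [e1, e2, e3, hoc _ hσT, hold _ σ hσ]
        omega
    · have hcr : c' r = some (some (c r)) := by simp [c', hrm]
      have hc0 : c' 0 = some (some (c 0)) := by simp [c']
      rw [hcr, hc0]
      simp only [Option.elim_some]
      obtain ⟨⟨z, hz, hzmax, hzlt⟩, hoc⟩ := hc r hrm
      constructor
      · refine ⟨z, hz, hzmax, ?_⟩
        intro σ hσ
        have h1 := hzlt _ (hTT σ hσ).2
        rw [res_lt (hFN _ z hz)] at h1
        rw [hρ2 _ z (hFN _ z hz)]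
        exact h1
      · intro σ hσ
        rw [hold _ σ hσ, hold _ σ hσ, hoc _ (hTT σ hσ).2]

theorem core (hmv : ∀ q, ∀ ξ ∈ mv q, q.1.1 ≤ ξ)
    (hP : ∃ᶠ q in (KF hH).curry (KF hH), P q)
    (hPS : ∀ q, P q → q.1.2 ∈ S) (hPS' : ∀ q, P q → q.2.2 ∈ S)
    (hPb : ∀ q, P q → ∃ b ∈ B, q.1.1 ≤ b ∧ ε < |q.1.2 b| ∧ ∀ x ∈ R, om b x = v x) (m : ℕ) :
    ∃ q, P q ∧ ∃ (bb : ℕ → Ω) (u : Ω → ℕ), ∀ r ≤ m, bb r ∈ B ∧ ε < |q.2.2 (bb r)| ∧
      (∀ x ∈ R, om (bb r) x = v x) ∧ ∀ ξ ∈ mv q, om (bb r) ξ = u ξ + r := by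
  classical
  obtain ⟨ι, hι, N, T, F, ρ, c, h, hc⟩ := inv_all hmv hP hPS hPb m
  have hlar : Large hH P mv N T := by
    obtain ⟨p, hp⟩ := h.exists
    exact hp.lar
  let G : Ω → (Ω → ℝ) → (Pt Ω × Pt Ω) → Prop := fun ν y q =>
    q.2.2 = y ∧ P q ∧ Ty mv q N = T ∧ ν < q.1.1
  let Y : Ω → Set (Ω → ℝ) := fun ν => {y | ∃ q, G ν y q}
  have hYS : ∀ ν, Y ν ⊆ S := by
    rintro ν y ⟨q, rfl, hq, _⟩
    exact hPS' q hq
  have hpos : ∀ ν, ∀ E ∈ H, (Y ν ∩ E).Nonempty := by
    intro ν E hE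
    have h1 : ∀ᶠ q in (KF hH).curry (KF hH), q.2.2 ∈ E := by
      rw [eventually_curry_iff]
      exact Eventually.of_forall fun _ => KF_of_mem hH hE
    obtain ⟨q, ⟨h1, h2⟩, h3, h4⟩ := (hlar.and_eventually (h1.and (ev_gt hH ν))).exists
    exact ⟨q.2.2, ⟨q, rfl, h1, h2, h4⟩, h3⟩
  have hbound : ∀ q : Pt Ω × Pt Ω, ∃ b : Ω, ∀ ξ ∈ mv q, ξ < b := by
    intro q
    obtain ⟨b, hb⟩ := exists_gt_of_countable (Ω := Ω) (A := (mv q : Set Ω))
      (mv q).countable_toSet
    exact ⟨b, fun x hx => hb x hx⟩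
  choose bd hbd using hbound
  let τ : Ω → (Ω → ℝ) → Ω := fun ν y =>
    if h : ∃ q, G ν y q then bd (Classical.choose h) else ν
  have hτ : ∀ ν y, y ∈ Y ν → ∃ q, G ν y q ∧ ∀ ξ ∈ mv q, ξ < τ ν y := by
    intro ν y hy
    have hy' : ∃ q, G ν y q := hy
    refine ⟨Classical.choose hy', Classical.choose_spec hy', ?_⟩
    simp only [τ, hy', dite_true]
    exact hbd _
  obtain ⟨⟨δ, x⟩, hp, hgen⟩ := (h.and_eventually (KF_gen' hH hYS hpos τ)).exists
  simp only at hgen
  have hNδ : N < δ := hp.lt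
  choose b hb using hp.b
  simp only at hb
  obtain ⟨ν, hν, hNν⟩ := Cs_cof hNδ
  -- open neighbourhood
  obtain ⟨y, hyW, hyY, hyτ⟩ := hgen ν (Cs_lt hν)
    (⋂ i : ι, {y : Ω → ℝ | ε < |y (b i)|})
    (isOpen_iInter_of_finite fun i =>
      isOpen_lt continuous_const (continuous_abs.comp (continuous_apply (b i))))
    (mem_iInter.2 fun i => (hb i).big)
  obtain ⟨q, ⟨rfl, hPq, hTq, hνq⟩, hqτ⟩ := hτ ν y hyY
  refine ⟨q, hPq, fun r => b (c r), fun ξ => osc ξ δ +
    oc (res N (fun x => e x ξ)) (ρ (c 0)) (F (c 0)) + 1, ?_⟩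
  intro r hr
  refine ⟨(hb (c r)).mem, mem_iInter.1 hyW (c r), (hb (c r)).rt, ?_⟩
  intro ξ hξ
  have hξδ : ξ < δ := (hqτ ξ hξ).trans hyτ
  have hνξ : ν < ξ := hνq.trans_le (hmv q ξ hξ)
  have hbr := hb (c r)
  have hσT : res N (fun x => e x ξ) ∈ T := by
    rw [← hTq]
    exact Finset.mem_image_of_mem _ hξ
  obtain ⟨⟨z, hz, hzmax, hzlt⟩, hoc⟩ := hc r hr
  rw [om_lt (hξδ.trans_le hbr.le)]
  have hLc := L_concat hξδ hν hνξ (b (c r)) hbr.le (by
    intro w hw
    rw [hbr.Leq] at hw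
    exact (hbr.Flt w hw).trans_le hNν)
  have hge : ∀ w ∈ L ξ δ, ν ≤ w := fun w hw => L_lower hξδ hw hν hνξ
  have hlt : ∀ w ∈ L ξ δ, w < ξ := fun w hw => L_lt _ _ w hw
  have hρz : ∀ w < N, ρ (c r) w = e w (b (c r)) := by
    intro w hw
    rw [← hbr.res, res_lt hw]
  have h1 : osc ξ (b (c r)) =
      oc (fun x => e x ξ) (fun x => e x (b (c r))) (F (c r)) +
        oc (fun x => e x ξ) (fun x => e x (b (c r))) (L ξ δ) := by
    rw [osc, hLc, hbr.Leq]
    apply oc_append (m := z)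
    · intro x hx y hy
      exact (hbr.Flt x hx).trans_le (hNν.trans (hge y hy))
    · exact hz
    · exact hzmax
    · have h2 := hzlt _ hσT
      rw [res_lt (hbr.Flt z hz), hρz z (hbr.Flt z hz)] at h2
      exact h2
  have h2 : oc (fun x => e x ξ) (fun x => e x (b (c r))) (F (c r)) =
      oc (res N (fun x => e x ξ)) (ρ (c r)) (F (c r)) := by
    apply oc_congr
    · intro w hw; exact (res_lt (hbr.Flt w hw) (fun x => e x ξ)).symm
    · intro w hw; exact (hρz w (hbr.Flt w hw)).symm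
  have h3 : oc (fun x => e x ξ) (fun x => e x (b (c r))) (L ξ δ) = osc ξ δ := by
    rw [osc]
    apply oc_congr
    · intro w _; rfl
    · intro w hw
      exact hbr.coh w (hNν.trans (hge w hw)) ((hlt w hw).trans hξδ)
  rw [h1, h2, h3, hoc _ hσT]
  ring

end Pool.Agent.Helper90.LSp
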