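import Mathlib

set_option autoImplicit false
set_option linter.unusedSectionVars false

namespace Pool.Agent.Helper90.LSp

open Set Filter Topology

theorem cluster_of_acc {Y : Type} [TopologicalSpace Y] [T1Space Y] {A : Set Y}
    (hA : ∀ E ⊆ A, E.Infinite → ∃ p : Y, AccPt p (𝓟 E)) (u : ℕ → Y) (hu : ∀ n, u n ∈ A) :
    ∃ p : Y, MapClusterPt p atTop u := by
  classical
  by_cases hinf : (range u).Infinite
  · obtain ⟨p, hp⟩ := hA (range u) (range_subset_iff.2 hu) hinf
    refine ⟨p, mapClusterPt_iff_frequently.2 fun s hs => ?_⟩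
    by_contra hcon
    rw [not_frequently, eventually_atTop] at hcon
    obtain ⟨N, hN⟩ := hcon
    have hfin : ((u '' {n | n < N}) \ {p}).Finite := ((finite_lt_nat N).image u).sdiff
    have hs' : s ∩ ((u '' {n | n < N}) \ {p})ᶜ ∈ 𝓝 p := by
      apply inter_mem hs
      exact hfin.isClosed.isOpen_compl.mem_nhds (by simp)
    rw [accPt_iff_nhds] at hp
    obtain ⟨y, ⟨hy1, n, rfl⟩, hy2⟩ := hp _ hs'
    rcases lt_or_ge n N with h | h
    · exact hy1.2 ⟨⟨n, h, rfl⟩, hy2⟩
    · exact hN n h hy1.1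
  · rw [not_infinite] at hinf
    have : ∃ p ∈ range u, ∃ᶠ n in atTop, u n = p := by
      by_contra hcon
      push Not at hcon
      have h1 : ∀ᶠ n in atTop, ∀ p ∈ range u, u n ≠ p := by
        rw [eventually_all_finite hinf]
        intro p hp
        exact hcon p hp
      obtain ⟨n, hn⟩ := h1.exists
      exact hn (u n) ⟨n, rfl⟩ rfl
    obtain ⟨p, _, hp⟩ := this
    refine ⟨p, mapClusterPt_iff_frequently.2 fun s hs => hp.mono fun n hn => ?_⟩
    rw [hn]; exact mem_of_mem_nhds hs

theorem seq_extract {X : Type} {A : Set (X → ℝ)} {f : X → ℝ} (hf : f ∈ closure A)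
    {N : Set X} (hN : N.Countable) :
    ∃ u : ℕ → (X → ℝ), (∀ n, u n ∈ A) ∧ ∀ b ∈ N, Tendsto (fun n => u n b) atTop (𝓝 (f b)) := by
  have : Countable N := hN.to_subtype
  let r : (X → ℝ) → (N → ℝ) := fun g b => g b
  have hr : Continuous r := continuous_pi fun b => continuous_apply _
  have h1 : r f ∈ closure (r '' A) :=
    image_closure_subset_closure_image hr ⟨f, hf, rfl⟩
  obtain ⟨x, hx, hlim⟩ := mem_closure_iff_seq_limit.1 h1
  choose u hu hux using hx
  refine ⟨u, hu, fun b hb => ?_⟩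
  rw [tendsto_pi_nhds] at hlim
  have := hlim ⟨b, hb⟩
  refine this.congr fun n => ?_
  rw [← hux n]

theorem cluster_eq {X : Type} {Y : Type} [TopologicalSpace Y] {φ : Y → (X → ℝ)}
    (hφ : Continuous φ) {u : ℕ → Y} {p : Y} (hp : MapClusterPt p atTop u) {b : X} {c : ℝ}
    (h : Tendsto (fun n => φ (u n) b) atTop (𝓝 c)) : φ p b = c := by
  have h1 : MapClusterPt (φ p b) atTop ((fun y => φ y b) ∘ u) :=
    hp.continuousAt_comp ((continuous_apply b).comp hφ).continuousAt
  have h2 : Tendsto ((fun y => φ y b) ∘ u) atTop (𝓝 c) := h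
  have h3 : ClusterPt (φ p b) (𝓝 c) := ClusterPt.mono h1 h2
  by_contra hne
  have h4 := disjoint_nhds_nhds.2 hne
  exact h3.ne h4.eq_bot

/-- general criterion -/
theorem groth_of {X : Type} [TopologicalSpace X]
    (tight : ∀ (b : X) (D : Set X), b ∈ closure D → ∃ D0 ⊆ D, D0.Countable ∧ b ∈ closure D0)
    (CI : ∀ A0 : Set (X → ℝ), A0.Countable → (∀ g ∈ A0, Continuous g) →
      ∃ N : Set X, N.Countable ∧ ∀ b, ∃ c ∈ N, ∀ g ∈ A0, g b = g c)
    (MT : ∀ S : Set (X → ℝ), (∀ x ∈ S, Continuous x) →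
      (∀ y : ℕ → (X → ℝ), (∀ n, y n ∈ S) → ∃ x ∈ S, MapClusterPt x atTop y) →
      (∀ x ∈ S, ∃ b, x b ≠ 0) →
      (∀ N : Set X, N.Countable → ∃ x ∈ S, ∀ b ∈ N, x b = 0) → False)
    (Y : Set {f : X → ℝ // Continuous f}) (A : Set Y)
    (hA : ∀ E ⊆ A, E.Infinite → ∃ p : Y, AccPt p (𝓟 E)) : IsCompact (closure A) := by
  classical
  let φ : Y → (X → ℝ) := fun f => f.1.1
  have hφi : IsInducing φ := IsInducing.subtypeVal.comp IsInducing.subtypeVal
  have hφ : Continuous φ := hφi.continuous
  have hφc : ∀ p, Continuous (φ p) := fun p => p.1.2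
  have hseq := cluster_of_acc hA
  -- bounds
  have hbd : ∀ b : X, ∃ M : ℝ, ∀ f ∈ A, |φ f b| ≤ M := by
    intro b
    by_contra hcon
    push Not at hcon
    choose u hu hub using fun n : ℕ => hcon n
    obtain ⟨p, hp⟩ := hseq u hu
    have h1 : ∀ᶠ y in 𝓝 p, |φ y b| < |φ p b| + 1 := by
      have hc : Continuous fun y => |φ y b| :=
        continuous_abs.comp ((continuous_apply b).comp hφ)
      exact hc.continuousAt.eventually_lt continuousAt_const (by linarith)
    have h2 := hp.frequently h1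
    obtain ⟨N, hN⟩ := exists_nat_gt (|φ p b| + 1)
    obtain ⟨n, hn1, hn2⟩ := (h2.and_eventually (eventually_ge_atTop N)).exists
    have h3 := hub n
    have h4 : (N : ℝ) ≤ n := by exact_mod_cast hn2
    linarith
  choose M hM using hbd
  have hKc : IsCompact (closure (φ '' A)) := by
    have h1 : IsCompact (Set.pi univ fun b : X => Icc (-(M b)) (M b)) :=
      isCompact_univ_pi fun b => isCompact_Icc
    refine h1.of_isClosed_subset isClosed_closure (closure_minimal ?_ h1.isClosed)
    rintro _ ⟨f, hf, rfl⟩ b _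
    exact abs_le.1 (hM b f hf)
  -- countable closures are inside `Y`
  have hcl : ∀ A0 ⊆ A, A0.Countable → ∀ g ∈ closure (φ '' A0), ∃ p : Y, φ p = g := by
    intro A0 hA0 hA0c g hg
    obtain ⟨N, hN, hNb⟩ := CI (φ '' A0) (hA0c.image φ) (by
      rintro _ ⟨p, _, rfl⟩; exact hφc p)
    obtain ⟨v, hv, hvlim⟩ := seq_extract hg hN
    choose u hu huv using hv
    obtain ⟨p, hp⟩ := hseq u fun n => hA0 (hu n)
    refine ⟨p, ?_⟩
    ext b
    obtain ⟨c, hc, hbc⟩ := hNb b
    have hgb : g b = g c := by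
      have hclosed : IsClosed {h : X → ℝ | h b = h c} :=
        isClosed_eq (continuous_apply b) (continuous_apply c)
      exact closure_minimal (fun h hh => hbc h hh) hclosed hg
    have h1 : Tendsto (fun n => φ (u n) b) atTop (𝓝 (g b)) := by
      rw [hgb]
      refine (hvlim c hc).congr fun n => ?_
      rw [← huv n]
      exact (hbc _ ⟨u n, hu n, rfl⟩).symm
    exact cluster_eq hφ hp h1
  -- approximation on countable sets
  have happ : ∀ f ∈ closure (φ '' A), ∀ N : Set X, N.Countable → ∃ A0 ⊆ A, A0.Countable ∧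
      ∃ p : Y, φ p ∈ closure (φ '' A0) ∧ ∀ b ∈ N, φ p b = f b := by
    intro f hf N hN
    obtain ⟨v, hv, hvlim⟩ := seq_extract hf hN
    choose u hu huv using hv
    obtain ⟨p, hp⟩ := hseq u hu
    refine ⟨range u, range_subset_iff.2 hu, countable_range u, p, ?_, fun b hb => ?_⟩
    · have h1 : MapClusterPt (φ p) atTop (φ ∘ u) := hp.continuousAt_comp hφ.continuousAt
      rw [mem_closure_iff_nhds]
      intro t ht
      obtain ⟨n, hn⟩ := (mapClusterPt_iff_frequently.1 h1 t ht).exists
      exact ⟨_, hn, u n, ⟨n, rfl⟩, rfl⟩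
    · apply cluster_eq hφ hp
      refine (hvlim b hb).congr fun n => ?_
      rw [← huv n]
  -- continuity
  have hcont : ∀ f ∈ closure (φ '' A), Continuous f := by
    intro f hf
    rw [continuous_iff_continuousAt]
    intro b
    by_contra hnc
    rw [Metric.continuousAt_iff'] at hnc
    push Not at hnc
    obtain ⟨ε, hε, hfr⟩ := hnc
    have hb : b ∈ closure {x | ε ≤ dist (f x) (f b)} := by
      rw [mem_closure_iff_frequently]
      exact hfr
    obtain ⟨D0, hD0, hD0c, hbD0⟩ := tight b _ hb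
    obtain ⟨A0, _, _, p, _, hp⟩ := happ f hf (insert b D0) (hD0c.insert b)
    have h1 : ∀ᶠ x in 𝓝 b, dist (φ p x) (φ p b) < ε :=
      Metric.continuousAt_iff'.1 (hφc p).continuousAt ε hε
    rw [mem_closure_iff_frequently] at hbD0
    obtain ⟨x, hx1, hx2⟩ := (hbD0.and_eventually h1).exists
    rw [hp x (mem_insert_of_mem _ hx1), hp b (mem_insert _ _)] at hx2
    exact absurd hx2 (not_lt.2 (hD0 hx1))
  -- main step
  have hmem : ∀ f ∈ closure (φ '' A), ∃ p : Y, φ p = f := by
    intro f hf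
    by_contra hno
    push Not at hno
    refine MT {x | ∃ A0 ⊆ A, A0.Countable ∧ ∃ g ∈ closure (φ '' A0), x = g - f} ?_ ?_ ?_ ?_
    · rintro x ⟨A0, hA0, hA0c, g, hg, rfl⟩
      obtain ⟨p, rfl⟩ := hcl A0 hA0 hA0c g hg
      exact (hφc p).sub (hcont f hf)
    · intro y hy
      choose A0 hA0 hA0c g hg hyg using hy
      have hsub : ∀ n, closure (φ '' A0 n) ⊆ closure (φ '' (⋃ n, A0 n)) := fun n =>
        closure_mono (image_mono (subset_iUnion A0 n))
      have hK' : IsCompact (closure (φ '' (⋃ n, A0 n))) :=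
        hKc.of_isClosed_subset isClosed_closure
          (closure_mono (image_mono (iUnion_subset hA0)))
      obtain ⟨g', hg', hcl'⟩ := hK'.exists_mapClusterPt_of_frequently (f := g) (l := atTop)
        (Frequently.of_forall fun n => hsub n (hg n))
      refine ⟨g' - f, ⟨⋃ n, A0 n, iUnion_subset hA0, countable_iUnion hA0c, g', hg', rfl⟩, ?_⟩
      have h1 : MapClusterPt (g' - f) atTop ((fun h => h - f) ∘ g) :=
        hcl'.continuousAt_comp (f := fun h : X → ℝ => h - f)
          (continuous_id.sub continuous_const).continuousAt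
      have h2 : (fun h => h - f) ∘ g = y := by
        ext n : 1
        exact (hyg n).symm
      rwa [h2] at h1
    · rintro x ⟨A0, hA0, hA0c, g, hg, rfl⟩
      obtain ⟨p, rfl⟩ := hcl A0 hA0 hA0c g hg
      by_contra hall
      push Not at hall
      apply hno p
      ext b
      have := hall b
      simp only [Pi.sub_apply] at this
      linarith
    · intro N hN
      obtain ⟨A0, hA0, hA0c, p, hp, hpN⟩ := happ f hf N hN
      refine ⟨φ p - f, ⟨A0, hA0, hA0c, φ p, hp, rfl⟩, fun b hb => ?_⟩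
      simp [hpN b hb]
  -- conclusion
  rw [hφi.isCompact_iff, hφi.closure_eq_preimage_closure_image,
    image_preimage_eq_of_subset]
  · exact hKc
  · intro f hf
    exact hmem f hf

end Pool.Agent.Helper90.LSp
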