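import Pool.Agent.Helper90.LSp.Osc

set_option autoImplicit false

namespace Pool.Agent.Helper90.LSp

open Set Filter Topology

variable {Ω : Type}

/-- the `ω`-closure of `A` inside `S` -/
def ocl (S A : Set (Ω → ℝ)) : Set (Ω → ℝ) :=
  {x | x ∈ S ∧ ∃ N ⊆ A, N.Countable ∧ x ∈ closure N}

/-- `F` is an `ω`-closed subset of `S` -/
def OClosed (S F : Set (Ω → ℝ)) : Prop := F ⊆ S ∧ ocl S F ⊆ F

theorem subset_ocl {S A : Set (Ω → ℝ)} (h : A ⊆ S) : A ⊆ ocl S A := by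
  intro x hx
  exact ⟨h hx, {x}, singleton_subset_iff.2 hx, countable_singleton x, subset_closure rfl⟩

theorem ocl_mono {S A B : Set (Ω → ℝ)} (h : A ⊆ B) : ocl S A ⊆ ocl S B := by
  rintro x ⟨hx, N, hN, h1, h2⟩
  exact ⟨hx, N, hN.trans h, h1, h2⟩

theorem ocl_oclosed (S A : Set (Ω → ℝ)) : OClosed S (ocl S A) := by
  refine ⟨fun x hx => hx.1, ?_⟩
  rintro x ⟨hxS, N, hN, hNc, hx⟩
  choose! f hf hfc hfx using fun y (hy : y ∈ N) => (hN hy).2
  refine ⟨hxS, ⋃ y ∈ N, f y, iUnion₂_subset hf, hNc.biUnion hfc, ?_⟩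
  have : N ⊆ closure (⋃ y ∈ N, f y) := fun y hy =>
    closure_mono (subset_biUnion_of_mem hy) (hfx y hy)
  exact closure_minimal this isClosed_closure hx

theorem OClosed.inter {S F G : Set (Ω → ℝ)} (hF : OClosed S F) (hG : OClosed S G) :
    OClosed S (F ∩ G) :=
  ⟨fun _ hx => hF.1 hx.1, fun _ hx =>
    ⟨hF.2 (ocl_mono inter_subset_left hx), hG.2 (ocl_mono inter_subset_right hx)⟩⟩

theorem OClosed.iInter {S : Set (Ω → ℝ)} {ι : Type} [Nonempty ι] {F : ι → Set (Ω → ℝ)}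
    (hF : ∀ i, OClosed S (F i)) : OClosed S (⋂ i, F i) := by
  refine ⟨fun x hx => (hF (Classical.arbitrary ι)).1 (mem_iInter.1 hx _), fun x hx => ?_⟩
  rw [mem_iInter]
  exact fun i => (hF i).2 (ocl_mono (iInter_subset _ _) hx)

/-- every sequence in `S` has a cluster point in `S` -/
def SeqComp (S : Set (Ω → ℝ)) : Prop :=
  ∀ y : ℕ → (Ω → ℝ), (∀ n, y n ∈ S) → ∃ x ∈ S, MapClusterPt x atTop y

theorem mem_closure_of_cluster {y : ℕ → (Ω → ℝ)} {x : Ω → ℝ} (h : MapClusterPt x atTop y)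
    {A : Set (Ω → ℝ)} (n : ℕ) (hA : ∀ k, n ≤ k → y k ∈ A) : x ∈ closure A := by
  rw [mem_closure_iff_nhds]
  intro t ht
  have := (mapClusterPt_iff_frequently.1 h) t ht
  rw [frequently_atTop] at this
  obtain ⟨k, hk, hkt⟩ := this n
  exact ⟨y k, hkt, hA k hk⟩

theorem OClosed.mem_of_cluster {S F : Set (Ω → ℝ)} (hF : OClosed S F)
    {y : ℕ → (Ω → ℝ)} {x : Ω → ℝ} (hx : x ∈ S) (h : MapClusterPt x atTop y)
    (n : ℕ) (hA : ∀ k, n ≤ k → y k ∈ F) : x ∈ F := by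
  apply hF.2
  refine ⟨hx, y '' {k | n ≤ k}, ?_, (to_countable _).image _, ?_⟩
  · rintro _ ⟨k, hk, rfl⟩; exact hA k hk
  · exact mem_closure_of_cluster h n fun k hk => ⟨k, hk, rfl⟩

/-- The properties of the filter of large subsets of `S`. -/
structure HF (S : Set (Ω → ℝ)) (B : Set Ω) (H : Filter (Ω → ℝ)) : Prop where
  ne : H.NeBot
  base : ∀ F ∈ H, ∃ G ∈ H, G ⊆ F ∧ OClosed S G
  zero : ∀ b ∈ B, {x | x b = 0} ∈ H
  pos : ∀ Y ⊆ S, (∀ F ∈ H, (Y ∩ F).Nonempty) → ocl S Y ∈ H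
  cint : ∀ F : ℕ → Set (Ω → ℝ), (∀ n, F n ∈ H) → (⋂ n, F n) ∈ H

theorem exists_H {S : Set (Ω → ℝ)} {B : Set Ω} (hS : SeqComp S)
    (h4 : ∀ N : Set Ω, N.Countable → ∃ x ∈ S, ∀ b ∈ N, b ∈ B → x b = 0) :
    ∃ H, HF S B H := by
  classical
  -- the initial filter
  let H0 : Filter (Ω → ℝ) :=
    { sets := {A | ∃ N : Set Ω, N.Countable ∧ {x | x ∈ S ∧ ∀ b ∈ N, b ∈ B → x b = 0} ⊆ A}
      univ_sets := ⟨∅, countable_empty, subset_univ _⟩
      sets_of_superset := by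
        rintro A A' ⟨N, hN, h⟩ hA
        exact ⟨N, hN, h.trans hA⟩
      inter_sets := by
        rintro A A' ⟨N, hN, h⟩ ⟨N', hN', h'⟩
        refine ⟨N ∪ N', hN.union hN', ?_⟩
        rintro x ⟨hx, hxb⟩
        exact ⟨h ⟨hx, fun b hb => hxb b (Or.inl hb)⟩, h' ⟨hx, fun b hb => hxb b (Or.inr hb)⟩⟩ }
  have hmem0 : ∀ A : Set (Ω → ℝ), A ∈ H0 ↔
      ∃ N : Set Ω, N.Countable ∧ {x | x ∈ S ∧ ∀ b ∈ N, b ∈ B → x b = 0} ⊆ A := fun A => Iff.rfl
  have hoc : ∀ N : Set Ω, OClosed S {x | x ∈ S ∧ ∀ b ∈ N, b ∈ B → x b = 0} := by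
    intro N
    refine ⟨fun x hx => hx.1, ?_⟩
    rintro x ⟨hxS, N', hN', _, hx⟩
    refine ⟨hxS, fun b hb hbB => ?_⟩
    have hcl : IsClosed {y : Ω → ℝ | y b = 0} :=
      isClosed_eq (continuous_apply b) continuous_const
    exact closure_minimal (fun y hy => (hN' hy).2 b hb hbB) hcl hx
  -- the class of filters
  let P : Filter (Ω → ℝ) → Prop := fun H =>
    H.NeBot ∧ (∀ F ∈ H, ∃ G ∈ H, G ⊆ F ∧ OClosed S G) ∧ H ≤ H0
  have hP0 : P H0 := by
    refine ⟨?_, ?_, le_rfl⟩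
    · refine ⟨fun h => ?_⟩
      have h1 : (∅ : Set (Ω → ℝ)) ∈ H0 := by rw [h]; exact mem_bot
      obtain ⟨N, hN, h2⟩ := h1
      obtain ⟨x, hx, hxb⟩ := h4 N hN
      exact h2 ⟨hx, hxb⟩
    · rintro F ⟨N, hN, h⟩
      exact ⟨_, ⟨N, hN, Subset.rfl⟩, h, hoc N⟩
  have : Nonempty {H // P H} := ⟨⟨H0, hP0⟩⟩
  obtain ⟨⟨H, hH⟩, hmax⟩ := exists_maximal_of_nonempty_chains_bounded
    (α := {H // P H}) (r := fun a b => b.1 ≤ a.1) (by
      intro c hc hne
      have hdir : DirectedOn (fun a b => a ≥ b) (Subtype.val '' c) := by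
        rintro _ ⟨a, ha, rfl⟩ _ ⟨b, hb, rfl⟩
        rcases eq_or_ne a b with rfl | hab
        · exact ⟨a.1, ⟨a, ha, rfl⟩, le_rfl, le_rfl⟩
        · rcases hc ha hb hab with h | h
          · exact ⟨b.1, ⟨b, hb, rfl⟩, h, le_rfl⟩
          · exact ⟨a.1, ⟨a, ha, rfl⟩, le_rfl, h⟩
      have hne' : (Subtype.val '' c).Nonempty := hne.image _
      have hmem : ∀ F : Set (Ω → ℝ), F ∈ sInf (Subtype.val '' c) →
          ∃ a ∈ c, F ∈ a.1 := by
        intro F hF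
        rw [sInf_eq_iInf] at hF
        obtain ⟨_, ⟨a, ha, rfl⟩, h⟩ :=
          (mem_biInf_of_directed (f := id) (s := Subtype.val '' c) hdir hne').1 hF
        exact ⟨a, ha, h⟩
      refine ⟨⟨sInf (Subtype.val '' c), ?_, ?_, ?_⟩, ?_⟩
      · refine sInf_neBot_of_directed' hne' hdir ?_
        rintro ⟨a, ha, h⟩
        exact a.2.1.ne h
      · intro F hF
        obtain ⟨a, ha, h⟩ := hmem F hF
        obtain ⟨G, hG, h1, h2⟩ := a.2.2.1 F h
        refine ⟨G, ?_, h1, h2⟩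
        exact (sInf_le ⟨a, ha, rfl⟩ : sInf (Subtype.val '' c) ≤ a.1) hG
      · obtain ⟨a, ha⟩ := hne
        exact (sInf_le ⟨a, ha, rfl⟩ : sInf (Subtype.val '' c) ≤ a.1).trans a.2.2.2
      · intro a ha
        exact (sInf_le ⟨a, ha, rfl⟩ : sInf (Subtype.val '' c) ≤ a.1))
    (fun h1 h2 => h2.trans h1)
  have hmin : ∀ H', P H' → H' ≤ H → H ≤ H' := fun H' h1 h2 => hmax ⟨H', h1⟩ h2
  -- maximality
  have hM : ∀ G : Set (Ω → ℝ), OClosed S G → (∀ F ∈ H, (G ∩ F).Nonempty) → G ∈ H := by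
    intro G hG hGF
    have hP : P (H ⊓ 𝓟 G) := by
      refine ⟨?_, ?_, inf_le_left.trans hH.2.2⟩
      · rw [inf_principal_neBot_iff]
        intro F hF
        rw [inter_comm]; exact hGF F hF
      · intro F hF
        rw [mem_inf_principal] at hF
        obtain ⟨G', hG', h1, h2⟩ := hH.2.1 _ hF
        refine ⟨G' ∩ G, ?_, ?_, h2.inter hG⟩
        · exact inter_mem (mem_inf_of_left hG') (mem_inf_of_right (mem_principal_self G))
        · rintro x ⟨hx1, hx2⟩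
          exact h1 hx1 hx2
    exact (hmin _ hP inf_le_left) (mem_inf_of_right (mem_principal_self G))
  have hSH : S ∈ H := hH.2.2 ⟨∅, countable_empty, fun x hx => hx.1⟩
  refine ⟨H, ⟨hH.1, hH.2.1, ?_, ?_, ?_⟩⟩
  · intro b hb
    exact hH.2.2 ⟨{b}, countable_singleton b, fun x hx => hx.2 b rfl hb⟩
  · intro Y hY hpos
    apply hM _ (ocl_oclosed S Y)
    intro F hF
    obtain ⟨x, hx, hxF⟩ := hpos F hF
    exact ⟨x, subset_ocl hY hx, hxF⟩
  · intro F hF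
    choose G hG hGF hGc using fun n => hH.2.1 (F n) (hF n)
    refine mem_of_superset (hM (⋂ n, G n) (OClosed.iInter hGc) ?_) (iInter_mono hGF)
    intro E hE
    obtain ⟨E', hE', hEE, hEc⟩ := hH.2.1 E hE
    have hne : ∀ n : ℕ, (E' ∩ ⋂ i ∈ Finset.range (n + 1), G i).Nonempty := by
      intro n
      have : (E' ∩ ⋂ i ∈ Finset.range (n + 1), G i) ∈ H := by
        apply inter_mem hE'
        rw [biInter_finset_mem]
        exact fun i _ => hG i
      exact hH.1.nonempty_of_mem this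
    choose y hy using hne
    obtain ⟨x, hx, hcl⟩ := hS y (fun n => hEc.1 (hy n).1)
    refine ⟨x, ?_, hEE (hEc.mem_of_cluster hx hcl 0 fun k _ => (hy k).1)⟩
    rw [mem_iInter]
    intro n
    refine (hGc n).mem_of_cluster hx hcl n fun k hk => ?_
    have := (hy k).2
    rw [mem_iInter₂] at this
    exact this n (by simp; omega)

end Pool.Agent.Helper90.LSp
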