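import Pool.Agent.Helper90.LSp.Kfilter

set_option autoImplicit false

namespace Pool.Agent.Helper90.LSp

open Set Filter Topology

variable {Ω : Type} [LinearOrder Ω] [W1 Ω]
variable {S : Set (Ω → ℝ)} {B : Set Ω} {H : Filter (Ω → ℝ)}

/-- combination of a family of tests -/
noncomputable def comb (hH : HF S B H) (T : (ℕ ⊕ Ω) → Test Ω S H) : Test Ω S H where
  g l := match l with
    | [] => Classical.arbitrary Ω
    | i :: l => (T i).g l
  Y l := match l with
    | [] => S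
    | i :: l => (T i).Y l
  Ysub l := match l with
    | [] => Subset.rfl
    | i :: l => (T i).Ysub l
  Ypos l := match l with
    | [] => fun _ hF => hH.ne.nonempty_of_mem (inter_mem hH.S_mem hF)
    | i :: l => (T i).Ypos l
  τ l y := match l with
    | [] => Classical.arbitrary Ω
    | i :: l => (T i).τ l y

theorem good_comb {hH : HF S B H} {T : (ℕ ⊕ Ω) → Test Ω S H} {δ : Ω} {x : Ω → ℝ}
    (h : Good (comb hH T) δ x) (i : ℕ ⊕ Ω) (hi : ∀ o, i = Sum.inr o → o < δ) :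
    Good (T i) δ x := by
  have hcons : ∀ l, Below δ l → Below δ (i :: l) := by
    intro l hl o ho
    rcases List.mem_cons.1 ho with h1 | h1
    · exact hi o h1.symm
    · exact hl o h1
  refine ⟨fun l hl => h.1 (i :: l) (hcons l hl), fun l hl => ?_⟩
  refine ocl_mono ?_ (h.2 (i :: l) (hcons l hl))
  rintro y ⟨hy, hτ⟩
  exact ⟨hy, fun l' hl' => hτ (i :: l') (hcons l' hl')⟩

/-- the default test -/
noncomputable def defTest (hH : HF S B H) : Test Ω S H where
  g _ := Classical.arbitrary Ω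
  Y _ := S
  Ysub _ := Subset.rfl
  Ypos _ _ hF := hH.ne.nonempty_of_mem (inter_mem hH.S_mem hF)
  τ _ _ := Classical.arbitrary Ω

/-- The filter of `good` pairs. -/
noncomputable def KF (hH : HF S B H) : Filter (Ω × (Ω → ℝ)) where
  sets := {A | ∃ t : Test Ω S H, ∀ δ x, Good t δ x → (δ, x) ∈ A}
  univ_sets := ⟨defTest hH, fun _ _ _ => mem_univ _⟩
  sets_of_superset := by
    rintro A A' ⟨t, ht⟩ hA
    exact ⟨t, fun δ x h => hA (ht δ x h)⟩
  inter_sets := by
    rintro A A' ⟨t, ht⟩ ⟨t', ht'⟩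
    refine ⟨comb hH fun i => if i = Sum.inl 0 then t else t', fun δ x h => ⟨ht δ x ?_, ht' δ x ?_⟩⟩
    · have := good_comb h (Sum.inl 0) (by simp)
      simpa using this
    · have := good_comb h (Sum.inl 1) (by simp)
      simpa using this

theorem mem_KF {hH : HF S B H} {A : Set (Ω × (Ω → ℝ))} :
    A ∈ KF hH ↔ ∃ t : Test Ω S H, ∀ δ x, Good t δ x → (δ, x) ∈ A := Iff.rfl

theorem KF_neBot (hS : SeqComp S) (hH : HF S B H) : (KF hH).NeBot := by
  refine ⟨fun h => ?_⟩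
  have h1 : (∅ : Set (Ω × (Ω → ℝ))) ∈ KF hH := by rw [h]; exact mem_bot
  obtain ⟨t, ht⟩ := h1
  obtain ⟨δ, x, hx⟩ := good_exists hS hH t
  exact ht δ x hx

theorem KF_countable (hH : HF S B H) : CountableInterFilter (KF hH) := by
  refine ⟨fun A hA hAK => ?_⟩
  rcases A.eq_empty_or_nonempty with h | h
  · rw [h]; simp
  · obtain ⟨f, hf⟩ := hA.exists_eq_range h
    have h1 : ∀ n, ∃ t : Test Ω S H, ∀ δ x, Good t δ x → (δ, x) ∈ f n := fun n =>
      hAK (f n) (by rw [hf]; exact ⟨n, rfl⟩)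
    choose t ht using h1
    rw [hf, sInter_range, mem_KF]
    refine ⟨comb hH fun i => Sum.elim t (fun _ => defTest hH) i, fun δ x h => ?_⟩
    rw [mem_iInter]
    intro n
    exact ht n δ x (good_comb h (Sum.inl n) (by simp))

/-- normality -/
theorem KF_diag (hH : HF S B H) {P : Ω → Ω × (Ω → ℝ) → Prop}
    (h : ∀ ν, ∀ᶠ p in KF hH, P ν p) : ∀ᶠ p in KF hH, ∀ ν < p.1, P ν p := by
  have h1 : ∀ ν, ∃ t : Test Ω S H, ∀ δ x, Good t δ x → P ν (δ, x) := fun ν => h ν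
  choose t ht using h1
  refine ⟨comb hH fun i => Sum.elim (fun _ => defTest hH) t i, fun δ x hg => ?_⟩
  intro ν hν
  exact ht ν δ x (good_comb hg (Sum.inr ν) (by
    intro o ho
    simp only [Sum.inr.injEq] at ho
    subst ho; exact hν))

theorem KF_fodor (hH : HF S B H) {Q : Ω → Ω × (Ω → ℝ) → Prop}
    (h : ∃ᶠ p in KF hH, ∃ ν < p.1, Q ν p) : ∃ ν, ∃ᶠ p in KF hH, ν < p.1 ∧ Q ν p := by
  by_contra hcon
  push Not at hcon
  apply h
  have h1 : ∀ ν, ∀ᶠ p in KF hH, ν < p.1 → ¬ Q ν p := by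
    intro ν
    have := hcon ν
    exact this
  filter_upwards [KF_diag hH h1] with p hp
  rintro ⟨ν, hν, hQ⟩
  exact hp ν hν hν hQ

/-- genericity -/
theorem KF_gen (hH : HF S B H) {Y : Set (Ω → ℝ)} (hY : Y ⊆ S)
    (hpos : ∀ F ∈ H, (Y ∩ F).Nonempty) (τ : (Ω → ℝ) → Ω) :
    ∀ᶠ p in KF hH, p.2 ∈ ocl S {y | y ∈ Y ∧ τ y < p.1} := by
  refine ⟨{ g := fun _ => Classical.arbitrary Ω, Y := fun _ => Y, Ysub := fun _ => hY,
            Ypos := fun _ => hpos, τ := fun _ => τ }, fun δ x h => ?_⟩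
  refine ocl_mono ?_ (h.2 [] (fun o ho => by simp at ho))
  rintro y ⟨h1, h2⟩
  exact ⟨h1, h2 [] (fun o ho => by simp at ho)⟩

theorem KF_club (hH : HF S B H) (g : Ω → Ω) : ∀ᶠ p in KF hH, ∀ ν < p.1, g ν < p.1 := by
  apply KF_diag hH
  intro ν
  refine ⟨{ g := fun _ => g ν, Y := fun _ => S, Ysub := fun _ => Subset.rfl,
            Ypos := (defTest hH).Ypos, τ := fun _ _ => Classical.arbitrary Ω }, fun δ x h => ?_⟩
  exact h.1 [] (fun o ho => by simp at ho)

theorem KF_gt (hH : HF S B H) (ν : Ω) : ∀ᶠ p in KF hH, ν < p.1 := by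
  refine ⟨{ g := fun _ => ν, Y := fun _ => S, Ysub := fun _ => Subset.rfl,
            Ypos := (defTest hH).Ypos, τ := fun _ _ => Classical.arbitrary Ω }, fun δ x h => ?_⟩
  exact h.1 [] (fun o ho => by simp at ho)

theorem KF_limit (hH : HF S B H) : ∀ᶠ p in KF hH, ∀ ν < p.1, ∃ μ, ν < μ ∧ μ < p.1 := by
  choose g hg using fun ν : Ω => exists_gt ν
  filter_upwards [KF_club hH g] with p hp ν hν
  exact ⟨g ν, hg ν, hp ν hν⟩

theorem KF_of_mem (hH : HF S B H) {F : Set (Ω → ℝ)} (hF : F ∈ H) :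
    ∀ᶠ p in KF hH, p.2 ∈ F := by
  obtain ⟨G, hG, hGF, hGc⟩ := hH.base F hF
  have := KF_gen hH hGc.1 (fun E hE => hH.ne.nonempty_of_mem (inter_mem hG hE))
    (fun _ => Classical.arbitrary Ω)
  filter_upwards [this] with p hp
  apply hGF
  apply hGc.2
  refine ocl_mono ?_ hp
  rintro y ⟨h1, _⟩
  exact h1

theorem KF_S (hH : HF S B H) : ∀ᶠ p in KF hH, p.2 ∈ S := KF_of_mem hH hH.S_mem

theorem KF_zero (hH : HF S B H) : ∀ᶠ p in KF hH, ∀ b < p.1, b ∈ B → p.2 b = 0 := by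
  apply KF_diag hH
  intro b
  by_cases hb : b ∈ B
  · filter_upwards [KF_of_mem hH (hH.zero b hb)] with p hp _
    exact hp
  · exact Eventually.of_forall fun p h => absurd h hb

theorem KF_pos (hH : HF S B H) {Y : Set (Ω → ℝ)} (h : ∃ᶠ p in KF hH, p.2 ∈ Y) :
    ∀ F ∈ H, (Y ∩ F).Nonempty := by
  intro F hF
  obtain ⟨p, h1, h2⟩ := (h.and_eventually (KF_of_mem hH hF)).exists
  exact ⟨p.2, h1, h2⟩

/-- a usable form of genericity, for families indexed by `Ω` -/
theorem KF_gen' (hH : HF S B H) {Y : Ω → Set (Ω → ℝ)} (hY : ∀ ν, Y ν ⊆ S)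
    (hpos : ∀ ν, ∀ F ∈ H, (Y ν ∩ F).Nonempty) (τ : Ω → (Ω → ℝ) → Ω) :
    ∀ᶠ p in KF hH, ∀ ν < p.1, ∀ W : Set (Ω → ℝ), IsOpen W → p.2 ∈ W →
      ∃ y ∈ W, y ∈ Y ν ∧ τ ν y < p.1 := by
  apply KF_diag hH
  intro ν
  filter_upwards [KF_gen hH (hY ν) (hpos ν) (τ ν)] with p hp W hW hpW
  obtain ⟨_, N, hN, _, hcl⟩ := hp
  obtain ⟨y, hyW, hyN⟩ := mem_closure_iff.1 hcl W hW hpW
  exact ⟨y, hyW, hN hyN⟩

/-- countable unions and `frequently` -/
theorem freq_countable {α ι : Type} {l : Filter α} [CountableInterFilter l] {R : Set ι}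
    (hR : R.Countable) {Q : ι → α → Prop} (h : ∃ᶠ p in l, ∃ r ∈ R, Q r p) :
    ∃ r ∈ R, ∃ᶠ p in l, Q r p := by
  by_contra hcon
  push Not at hcon
  apply h
  have : ∀ᶠ p in l, ∀ r ∈ R, ¬ Q r p := by
    rw [eventually_countable_ball hR]
    intro r hr
    have := hcon r hr
    exact this
  filter_upwards [this] with p hp
  rintro ⟨r, hr, hQ⟩
  exact hp r hr hQ

theorem curry_countable {α β : Type} (l : Filter α) (m : Filter β) [CountableInterFilter l]
    [CountableInterFilter m] : CountableInterFilter (l.curry m) := by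
  refine ⟨fun A hA hAK => ?_⟩
  have : ∀ᶠ q in l.curry m, ∀ s ∈ A, q ∈ s := by
    rw [eventually_curry_iff]
    have h1 : ∀ᶠ x in l, ∀ s ∈ A, ∀ᶠ y in m, (x, y) ∈ s := by
      rw [eventually_countable_ball hA]
      intro s hs
      have := hAK s hs
      exact (eventually_curry_iff (p := fun q => q ∈ s)).1 this
    filter_upwards [h1] with x hx
    rw [eventually_countable_ball hA]
    exact fun s hs => hx s hs
  exact this

end Pool.Agent.Helper90.LSp
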