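import Pool.Agent.Helper90.LSp.Hfilter

set_option autoImplicit false

namespace Pool.Agent.Helper90.LSp

open Set Filter Topology

variable {Ω : Type} [LinearOrder Ω] [W1 Ω]

/-- index lists -/
abbrev Ix (Ω : Type) := List (ℕ ⊕ Ω)

/-- all ordinals in the list are below `δ` -/
def Below (δ : Ω) (l : Ix Ω) : Prop := ∀ o : Ω, Sum.inr o ∈ l → o < δ

theorem below_countable (δ : Ω) : {l : Ix Ω | Below δ l}.Countable := by
  let A : Set (ℕ ⊕ Ω) := range Sum.inl ∪ Sum.inr '' Iio δ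
  have hA : A.Countable := (countable_range _).union ((W1.cnt δ).image _)
  have : Countable A := hA.to_subtype
  refine (countable_range (List.map (Subtype.val : A → ℕ ⊕ Ω))).mono ?_
  intro l hl
  have hl' : ∀ i ∈ l, i ∈ A := by
    intro i hi
    rcases i with n | o
    · exact Or.inl ⟨n, rfl⟩
    · exact Or.inr ⟨o, hl o hi, rfl⟩
  clear hl
  induction l with
  | nil => exact ⟨[], rfl⟩
  | cons i l ih =>
    obtain ⟨l', hl'e⟩ := ih fun j hj => hl' j (List.mem_cons_of_mem _ hj)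
    exact ⟨⟨i, hl' i (List.mem_cons_self)⟩ :: l', by simp [hl'e]⟩

omit [W1 Ω] in
theorem Below.mono {δ δ' : Ω} (h : δ ≤ δ') {l : Ix Ω} (hl : Below δ l) : Below δ' l :=
  fun o ho => (hl o ho).trans_le h

/-- A test. -/
structure Test (Ω : Type) (S : Set (Ω → ℝ)) (H : Filter (Ω → ℝ)) where
  g : Ix Ω → Ω
  Y : Ix Ω → Set (Ω → ℝ)
  Ysub : ∀ l, Y l ⊆ S
  Ypos : ∀ l, ∀ F ∈ H, (Y l ∩ F).Nonempty
  τ : Ix Ω → (Ω → ℝ) → Ω

variable {S : Set (Ω → ℝ)} {B : Set Ω} {H : Filter (Ω → ℝ)}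

omit [LinearOrder Ω] [W1 Ω] in
theorem HF.countableInter (hH : HF S B H) : CountableInterFilter H := by
  refine ⟨fun A hA hAH => ?_⟩
  rcases A.eq_empty_or_nonempty with h | h
  · rw [h]; simp
  · obtain ⟨f, hf⟩ := hA.exists_eq_range h
    rw [hf, sInter_range]
    apply hH.cint
    intro n
    exact hAH _ (by rw [hf]; exact ⟨n, rfl⟩)

omit [LinearOrder Ω] [W1 Ω] in
theorem HF.S_mem (hH : HF S B H) : S ∈ H := by
  obtain ⟨G, hG, _, h2⟩ := hH.base univ univ_mem
  exact mem_of_superset hG h2.1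

/-- `(δ, x)` is good for the test `t` -/
def Good (t : Test Ω S H) (δ : Ω) (x : Ω → ℝ) : Prop :=
  (∀ l, Below δ l → t.g l < δ) ∧
  ∀ l, Below δ l → x ∈ ocl S {y | y ∈ t.Y l ∧ ∀ l', Below δ l' → t.τ l' y < δ}

/-- least strict upper bound of a sequence -/
theorem exists_lsub (u : ℕ → Ω) : ∃ b, (∀ n, u n < b) ∧ ∀ o < b, ∃ n, o ≤ u n := by
  have hne : {b | ∀ n, u n < b}.Nonempty := exists_gt_seq u
  refine ⟨wellFounded_lt.min _ hne, wellFounded_lt.min_mem _ hne, fun o ho => ?_⟩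
  by_contra h
  push Not at h
  exact wellFounded_lt.not_lt_min _ (show o ∈ {b | ∀ n, u n < b} from h) ho

theorem good_exists (hS : SeqComp S) (hH : HF S B H) (t : Test Ω S H) :
    ∃ δ x, Good t δ x := by
  classical
  have := hH.countableInter
  have := hH.ne
  -- point at stage δ
  have hG : ∀ δ : Ω, ∃ x : Ω → ℝ, ∀ l, Below δ l → x ∈ ocl S (t.Y l) := by
    intro δ
    have : ∀ᶠ x in H, ∀ l ∈ {l : Ix Ω | Below δ l}, x ∈ ocl S (t.Y l) := by
      rw [eventually_countable_ball (below_countable δ)]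
      intro l _
      exact hH.pos _ (t.Ysub l) (t.Ypos l)
    exact this.exists
  choose X hX using hG
  have hN : ∀ (δ : Ω) (l : Ix Ω), ∃ N : Set (Ω → ℝ), N.Countable ∧
      (Below δ l → N ⊆ t.Y l ∧ X δ ∈ closure N) := by
    intro δ l
    by_cases h : Below δ l
    · obtain ⟨_, N, h1, h2, h3⟩ := hX δ l h
      exact ⟨N, h2, fun _ => ⟨h1, h3⟩⟩
    · exact ⟨∅, countable_empty, fun h' => absurd h' h⟩
  choose N hNc hN using hN
  -- the step
  have hstep : ∀ s : Ω × {M : Set (Ω → ℝ) // M.Countable}, ∃ s' : Ω × {M : Set (Ω → ℝ) // M.Countable},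
      s.1 < s'.1 ∧ s.2.1 ⊆ s'.2.1 ∧ (∀ l, Below s.1 l → N s.1 l ⊆ s'.2.1) ∧
      (∀ l, Below s.1 l → t.g l < s'.1) ∧
      (∀ l, Below s.1 l → ∀ y ∈ s'.2.1, t.τ l y < s'.1) := by
    rintro ⟨δ, M, hM⟩
    let M' : Set (Ω → ℝ) := M ∪ ⋃ l ∈ {l : Ix Ω | Below δ l}, N δ l
    have hM' : M'.Countable := hM.union ((below_countable δ).biUnion fun l _ => hNc δ l)
    let A : Set Ω := {δ} ∪ t.g '' {l | Below δ l} ∪
      (fun p : Ix Ω × (Ω → ℝ) => t.τ p.1 p.2) '' ({l | Below δ l} ×ˢ M')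
    have hA : A.Countable := ((countable_singleton δ).union ((below_countable δ).image _)).union
      (((below_countable δ).prod hM').image _)
    obtain ⟨b, hb⟩ := exists_gt_of_countable hA
    refine ⟨⟨b, M', hM'⟩, hb δ (Or.inl (Or.inl rfl)), subset_union_left, ?_, ?_, ?_⟩
    · intro l hl
      exact (subset_biUnion_of_mem (show l ∈ {l : Ix Ω | Below δ l} from hl)).trans
        subset_union_right
    · intro l hl
      exact hb _ (Or.inl (Or.inr ⟨l, hl, rfl⟩))
    · intro l hl y hy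
      exact hb _ (Or.inr ⟨(l, y), ⟨hl, hy⟩, rfl⟩)
  choose! nx hnx using hstep
  let st : ℕ → Ω × {M : Set (Ω → ℝ) // M.Countable} := fun n =>
    Nat.rec (⟨Classical.arbitrary Ω, ∅, countable_empty⟩) (fun _ s => nx s) n
  have hst : ∀ n, st (n + 1) = nx (st n) := fun n => rfl
  have h1 : ∀ n, (st n).1 < (st (n + 1)).1 := fun n => by rw [hst]; exact (hnx (st n)).1
  have h2 : ∀ n, (st n).2.1 ⊆ (st (n + 1)).2.1 := fun n => by rw [hst]; exact (hnx (st n)).2.1
  have h3 : ∀ n l, Below (st n).1 l → N (st n).1 l ⊆ (st (n + 1)).2.1 := fun n => by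
    rw [hst]; exact (hnx (st n)).2.2.1
  have h4 : ∀ n l, Below (st n).1 l → t.g l < (st (n + 1)).1 := fun n => by
    rw [hst]; exact (hnx (st n)).2.2.2.1
  have h5 : ∀ n l, Below (st n).1 l → ∀ y ∈ (st (n + 1)).2.1, t.τ l y < (st (n + 1)).1 :=
    fun n => by rw [hst]; exact (hnx (st n)).2.2.2.2
  have hmono : StrictMono fun n => (st n).1 := strictMono_nat_of_lt_succ h1
  have hmonoM : Monotone fun n => (st n).2.1 := monotone_nat_of_le_succ h2
  obtain ⟨δ, hδ1, hδ2⟩ := exists_lsub fun n => (st n).1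
  obtain ⟨x, hxS, hx⟩ := hS (fun n => X (st n).1) (fun n => (hX _ [] (fun o ho => by simp at ho)).1)
  have hbel : ∀ l, Below δ l → ∃ n, Below (st n).1 l := by
    intro l
    induction l with
    | nil => intro _; exact ⟨0, fun o ho => by simp at ho⟩
    | cons i l ih =>
      intro hl
      obtain ⟨n, hn⟩ := ih fun o ho => hl o (List.mem_cons_of_mem _ ho)
      rcases i with k | o
      · refine ⟨n, fun o ho => ?_⟩
        simp only [List.mem_cons, reduceCtorEq, false_or] at ho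
        exact hn o ho
      · obtain ⟨m, hm⟩ := hδ2 o (hl o List.mem_cons_self)
        refine ⟨max n m + 1, fun o' ho' => ?_⟩
        simp only [List.mem_cons, Sum.inr.injEq] at ho'
        rcases ho' with rfl | ho'
        · exact lt_of_le_of_lt (hm.trans (hmono.monotone (le_max_right n m))) (h1 _)
        · exact (hn o' ho').trans_le (hmono.monotone (show n ≤ max n m + 1 by omega))
  refine ⟨δ, x, fun l hl => ?_, fun l hl => ?_⟩
  · obtain ⟨n, hn⟩ := hbel l hl
    exact (h4 n l hn).trans (hδ1 (n + 1))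
  · obtain ⟨n0, hn0⟩ := hbel l hl
    have hbn : ∀ n, n0 ≤ n → Below (st n).1 l := fun n hn => hn0.mono (hmono.monotone hn)
    refine ⟨hxS, ⋃ n ∈ {n | n0 ≤ n}, N (st n).1 l, ?_, ?_, ?_⟩
    · refine iUnion₂_subset fun n hn y hy => ⟨(hN _ l (hbn n hn)).1 hy, fun l' hl' => ?_⟩
      obtain ⟨m, hm⟩ := hbel l' hl'
      have hm' : Below (st (max n m)).1 l' := hm.mono (hmono.monotone (le_max_right _ _))
      have hy' : y ∈ (st (max n m + 1)).2.1 :=
        hmonoM (by omega : n + 1 ≤ max n m + 1) (h3 n l (hbn n hn) hy)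
      exact (h5 _ l' hm' y hy').trans (hδ1 (max n m + 1))
    · exact (to_countable _).biUnion fun n _ => hNc _ _
    · have : x ∈ closure (closure (⋃ n ∈ {n | n0 ≤ n}, N (st n).1 l)) := by
        apply mem_closure_of_cluster hx n0
        intro k hk
        exact closure_mono (subset_biUnion_of_mem (show k ∈ {n | n0 ≤ n} from hk))
          (hN _ l (hbn k hk)).2
      rwa [closure_closure] at this

end Pool.Agent.Helper90.LSp
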