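import Mathlib

set_option autoImplicit false
set_option linter.unusedSectionVars false

namespace Pool.Agent.Helper90.LSp

open Set Filter Topology

section

variable {d : Type} [Fintype d]

/-- Birkhoff average -/
noncomputable def avg (α : UnitAddTorus d) (f : UnitAddTorus d → ℂ) (n : ℕ)
    (u : UnitAddTorus d) : ℂ :=
  (n : ℂ)⁻¹ * ∑ m ∈ Finset.range n, f (u + m • α)

/-- averages converge uniformly (in a weak sense) -/
def PP (α : UnitAddTorus d) (f : UnitAddTorus d → ℂ) : Prop :=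
  ∀ ε : ℝ, 0 < ε → ∃ l : ℂ, ∃ n0 : ℕ, ∀ n, n0 ≤ n → ∀ u, ‖avg α f n u - l‖ ≤ ε

theorem avg_add (α : UnitAddTorus d) (f g : UnitAddTorus d → ℂ) (n : ℕ) (u : UnitAddTorus d) :
    avg α (fun x => f x + g x) n u = avg α f n u + avg α g n u := by
  simp only [avg, Finset.sum_add_distrib, mul_add]

theorem avg_smul (α : UnitAddTorus d) (c : ℂ) (f : UnitAddTorus d → ℂ) (n : ℕ)
    (u : UnitAddTorus d) :
    avg α (fun x => c * f x) n u = c * avg α f n u := by
  simp only [avg, ← Finset.mul_sum]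
  ring

theorem avg_norm_le (α : UnitAddTorus d) (f : UnitAddTorus d → ℂ) (C : ℝ) (hC : 0 ≤ C)
    (hf : ∀ x, ‖f x‖ ≤ C) (n : ℕ) (u : UnitAddTorus d) : ‖avg α f n u‖ ≤ C := by
  rw [avg, norm_mul, norm_inv, Complex.norm_natCast]
  rcases Nat.eq_zero_or_pos n with rfl | hn
  · simpa using hC
  · have h1 : ‖∑ m ∈ Finset.range n, f (u + m • α)‖ ≤ n * C := by
      refine (norm_sum_le _ _).trans ?_
      refine (Finset.sum_le_sum fun m _ => hf _).trans ?_
      simp
    have hn' : (0 : ℝ) < n := by exact_mod_cast hn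
    calc (n : ℝ)⁻¹ * ‖∑ m ∈ Finset.range n, f (u + m • α)‖ ≤ (n : ℝ)⁻¹ * (n * C) := by
          gcongr
      _ = C := by field_simp

theorem PP_add {α : UnitAddTorus d} {f g : UnitAddTorus d → ℂ} (hf : PP α f) (hg : PP α g) :
    PP α (fun x => f x + g x) := by
  intro ε hε
  obtain ⟨l, n0, h1⟩ := hf (ε / 2) (by linarith)
  obtain ⟨l', n1, h2⟩ := hg (ε / 2) (by linarith)
  refine ⟨l + l', max n0 n1, fun n hn u => ?_⟩
  rw [avg_add]
  have := h1 n ((le_max_left _ _).trans hn) u
  have := h2 n ((le_max_right _ _).trans hn) u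
  calc ‖avg α f n u + avg α g n u - (l + l')‖
      = ‖(avg α f n u - l) + (avg α g n u - l')‖ := by congr 1; ring
    _ ≤ ‖avg α f n u - l‖ + ‖avg α g n u - l'‖ := norm_add_le _ _
    _ ≤ ε := by linarith

theorem PP_smul {α : UnitAddTorus d} {f : UnitAddTorus d → ℂ} (c : ℂ) (hf : PP α f) :
    PP α (fun x => c * f x) := by
  intro ε hε
  obtain ⟨l, n0, h1⟩ := hf (ε / (‖c‖ + 1)) (by positivity)
  refine ⟨c * l, n0, fun n hn u => ?_⟩
  rw [avg_smul, ← mul_sub, norm_mul]
  have h2 := h1 n hn u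
  calc ‖c‖ * ‖avg α f n u - l‖ ≤ ‖c‖ * (ε / (‖c‖ + 1)) := by gcongr
    _ ≤ (‖c‖ + 1) * (ε / (‖c‖ + 1)) := by gcongr; linarith
    _ = ε := by field_simp

theorem mFourier_mul (k : d → ℤ) (x y : UnitAddTorus d) :
    UnitAddTorus.mFourier k (x + y) = UnitAddTorus.mFourier k x * UnitAddTorus.mFourier k y := by
  simp only [UnitAddTorus.mFourier, ContinuousMap.coe_mk, Pi.add_apply, fourier_apply,
    smul_add, AddCircle.toCircle_add, Circle.coe_mul, Finset.prod_mul_distrib]

theorem mFourier_nsmul (k : d → ℤ) (x : UnitAddTorus d) (m : ℕ) :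
    UnitAddTorus.mFourier k (m • x) = (UnitAddTorus.mFourier k x) ^ m := by
  induction m with
  | zero => simp [UnitAddTorus.mFourier]
  | succ m ih => rw [succ_nsmul, mFourier_mul, ih, pow_succ]

theorem PP_mFourier {α : UnitAddTorus d} (k : d → ℤ)
    (hk : k ≠ 0 → UnitAddTorus.mFourier k α ≠ 1) :
    PP α (UnitAddTorus.mFourier k) := by
  intro ε hε
  by_cases h0 : k = 0
  · subst h0
    refine ⟨1, 1, fun n hn u => ?_⟩
    have hn' : (n : ℂ) ≠ 0 := by
      have : 0 < n := hn
      exact_mod_cast this.ne'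
    have : avg α (UnitAddTorus.mFourier (0 : d → ℤ)) n u = 1 := by
      simp only [avg, UnitAddTorus.mFourier_zero, ContinuousMap.one_apply, Finset.sum_const,
        Finset.card_range, nsmul_eq_mul, mul_one]
      exact inv_mul_cancel₀ hn'
    rw [this]; simpa using hε.le
  · have hz := hk h0
    set z := UnitAddTorus.mFourier k α with hzdef
    have hz1 : ‖z‖ ≤ 1 := by
      have := (UnitAddTorus.mFourier k).norm_coe_le_norm α
      rwa [UnitAddTorus.mFourier_norm] at this
    have hpos : 0 < ‖z - 1‖ := norm_pos_iff.2 (sub_ne_zero.2 hz)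
    obtain ⟨n0, hn0⟩ := exists_nat_gt (2 / (‖z - 1‖ * ε))
    refine ⟨0, n0 + 1, fun n hn u => ?_⟩
    have hnpos : (0 : ℝ) < n := by
      have : 0 < n := by omega
      exact_mod_cast this
    have hsum : ∑ m ∈ Finset.range n, UnitAddTorus.mFourier k (u + m • α) =
        UnitAddTorus.mFourier k u * ((z ^ n - 1) / (z - 1)) := by
      rw [← geom_sum_eq hz, Finset.mul_sum]
      apply Finset.sum_congr rfl
      intro m _
      rw [mFourier_mul, mFourier_nsmul]
    have hu1 : ‖UnitAddTorus.mFourier k u‖ ≤ 1 := by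
      have := (UnitAddTorus.mFourier k).norm_coe_le_norm u
      rwa [UnitAddTorus.mFourier_norm] at this
    rw [sub_zero, avg, hsum, norm_mul, norm_inv, Complex.norm_natCast, norm_mul, norm_div]
    have h2 : ‖z ^ n - 1‖ ≤ 2 := by
      refine (norm_sub_le _ _).trans ?_
      rw [norm_pow, norm_one]
      have := pow_le_one₀ (n := n) (norm_nonneg z) hz1
      linarith
    have h3 : 2 / (‖z - 1‖ * ε) < n := by
      refine hn0.trans ?_
      have : n0 < n := by omega
      exact_mod_cast this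
    calc (n : ℝ)⁻¹ * (‖UnitAddTorus.mFourier k u‖ * (‖z ^ n - 1‖ / ‖z - 1‖))
        ≤ (n : ℝ)⁻¹ * (1 * (2 / ‖z - 1‖)) := by gcongr
      _ = (2 / (‖z - 1‖ * ε)) * ε / n := by field_simp
      _ ≤ n * ε / n := by gcongr
      _ = ε := by field_simp

theorem PP_all {α : UnitAddTorus d}
    (hk : ∀ k : d → ℤ, k ≠ 0 → UnitAddTorus.mFourier k α ≠ 1) (f : C(UnitAddTorus d, ℂ)) :
    PP α f := by
  have hspan : ∀ g ∈ Submodule.span ℂ (range (UnitAddTorus.mFourier (d := d))), PP α g := by
    intro g hg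
    induction hg using Submodule.span_induction with
    | mem x hx => obtain ⟨k, rfl⟩ := hx; exact PP_mFourier k (hk k)
    | zero =>
      intro ε hε
      refine ⟨0, 0, fun n _ u => ?_⟩
      simp [avg, hε.le]
    | add x y _ _ hx hy => exact PP_add hx hy
    | smul c x _ hx => exact PP_smul c hx
  intro ε hε
  have hd : f ∈ (Submodule.span ℂ (range (UnitAddTorus.mFourier (d := d)))).topologicalClosure := by
    rw [UnitAddTorus.span_mFourier_closure_eq_top]; trivial
  have hd' : f ∈ closure (Submodule.span ℂ (range (UnitAddTorus.mFourier (d := d))) :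
      Set C(UnitAddTorus d, ℂ)) := hd
  obtain ⟨g, hg, hfg⟩ := Metric.mem_closure_iff.1 hd' (ε / 2) (by linarith)
  obtain ⟨l, n0, h1⟩ := hspan g hg (ε / 2) (by linarith)
  refine ⟨l, n0, fun n hn u => ?_⟩
  have h2 : avg α f n u = avg α g n u + avg α (fun x => f x - g x) n u := by
    rw [← avg_add]; congr 1; ext x; ring
  have h3 : ‖avg α (fun x => f x - g x) n u‖ ≤ ε / 2 := by
    apply avg_norm_le _ _ _ (by linarith)
    intro x
    have : ‖(f - g) x‖ ≤ ‖f - g‖ := (f - g).norm_coe_le_norm x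
    rw [dist_eq_norm] at hfg
    simp only [ContinuousMap.sub_apply] at this
    linarith
  have h4 := h1 n hn u
  rw [h2]
  calc ‖avg α g n u + avg α (fun x => f x - g x) n u - l‖
      = ‖(avg α g n u - l) + avg α (fun x => f x - g x) n u‖ := by congr 1; ring
    _ ≤ _ := norm_add_le _ _
    _ ≤ ε := by linarith

/-- uniform Kronecker theorem -/
theorem kron_torus {α : UnitAddTorus d}
    (hk : ∀ k : d → ℤ, k ≠ 0 → UnitAddTorus.mFourier k α ≠ 1) {η : ℝ} (hη : 0 < η) :
    ∃ n : ℕ, ∀ u : UnitAddTorus d, ∃ m < n, ∀ i, ‖u i + m • α i‖ < η := by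
  classical
  -- bump function
  let f : C(UnitAddTorus d, ℝ) := ⟨fun x => max 0 (1 - ‖x‖ / η), by fun_prop⟩
  let F : C(UnitAddTorus d, ℂ) := ⟨fun x => (f x : ℂ), by fun_prop⟩
  have hf0 : ∀ x, 0 ≤ f x := fun x => le_max_left _ _
  have hf1 : ∀ x, 0 < f x → ‖x‖ < η := by
    intro x hx
    have : 0 < max 0 (1 - ‖x‖ / η) := hx
    rw [lt_max_iff] at this
    rcases this with h | h
    · exact absurd h (lt_irrefl _)
    · rw [sub_pos, div_lt_one hη] at h; exact h
  have hf2 : ∀ x, ‖x‖ < η / 2 → 1 / 2 ≤ f x := by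
    intro x hx
    have h1 : ‖x‖ / η < 1 / 2 := by
      rw [div_lt_iff₀ hη]; linarith
    exact le_trans (by linarith) (le_max_right 0 (1 - ‖x‖ / η))
  -- finite cover
  obtain ⟨t, ht⟩ : ∃ t : Finset (UnitAddTorus d), ∀ x : UnitAddTorus d, ∃ g ∈ t, ‖x + g‖ < η / 2 := by
    obtain ⟨t, _, ht⟩ := isCompact_univ.elim_nhds_subcover
      (fun x : UnitAddTorus d => Metric.ball x (η / 2))
      (fun x _ => Metric.ball_mem_nhds x (by linarith))
    refine ⟨t.image (fun x => -x), fun x => ?_⟩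
    have hx := ht (mem_univ x)
    simp only [mem_iUnion, Metric.mem_ball, exists_prop] at hx
    obtain ⟨y, hy, hxy⟩ := hx
    refine ⟨-y, Finset.mem_image_of_mem _ hy, ?_⟩
    rwa [← sub_eq_add_neg, ← dist_eq_norm]
  have htne : 0 < t.card := by
    obtain ⟨g, hg, _⟩ := ht 0
    exact Finset.card_pos.2 ⟨g, hg⟩
  set N : ℝ := (t.card : ℝ) with hN
  have hNpos : 0 < N := by rw [hN]; exact_mod_cast htne
  obtain ⟨l, n0, hl⟩ := PP_all hk F (1 / (8 * N)) (by positivity)
  set n := n0 + 1 with hn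
  have hnpos : (0 : ℝ) < n := by rw [hn]; positivity
  -- real averages
  let A : UnitAddTorus d → ℝ := fun u => (n : ℝ)⁻¹ * ∑ m ∈ Finset.range n, f (u + m • α)
  have hA : ∀ u, avg α F n u = (A u : ℂ) := by
    intro u
    simp only [avg, A, F, ContinuousMap.coe_mk]
    push_cast
    rfl
  have hAl : ∀ u, |A u - l.re| ≤ 1 / (8 * N) := by
    intro u
    have h1 := hl n (by omega) u
    rw [hA] at h1
    have h2 := Complex.abs_re_le_norm ((A u : ℂ) - l)
    simp only [Complex.sub_re, Complex.ofReal_re] at h2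
    exact h2.trans h1
  have hsum : 1 / 2 ≤ ∑ g ∈ t, A (0 + g) := by
    simp only [A]
    rw [← Finset.mul_sum, Finset.sum_comm]
    have h1 : ∀ m ∈ Finset.range n, (1 / 2 : ℝ) ≤ ∑ g ∈ t, f (0 + g + m • α) := by
      intro m _
      obtain ⟨g, hg, hgn⟩ := ht (m • α)
      refine le_trans ?_ (Finset.single_le_sum (f := fun g => f (0 + g + m • α))
        (fun g _ => hf0 _) hg)
      apply hf2
      rw [zero_add, add_comm]; exact hgn
    have h2 := Finset.sum_le_sum h1
    simp only [Finset.sum_const, Finset.card_range, nsmul_eq_mul] at h2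
    calc (1 / 2 : ℝ) = (n : ℝ)⁻¹ * (n * (1 / 2)) := by field_simp
      _ ≤ _ := by gcongr
  have hle : ∑ g ∈ t, A (0 + g) ≤ N * (l.re + 1 / (8 * N)) := by
    rw [hN]
    refine (Finset.sum_le_card_nsmul t _ _ ?_).trans (by rw [nsmul_eq_mul])
    intro g _
    have := abs_le.1 (hAl (0 + g))
    linarith [this.2]
  have hlre : 3 / (8 * N) ≤ l.re := by
    have h1 := hsum.trans hle
    have h2 : N * (l.re + 1 / (8 * N)) = N * l.re + 1 / 8 := by field_simp
    rw [h2] at h1
    rw [div_le_iff₀ (by positivity)]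
    nlinarith
  refine ⟨n, fun u => ?_⟩
  have hpos : 0 < A u := by
    have := abs_le.1 (hAl u)
    have h1 : (1 : ℝ) / (8 * N) < 3 / (8 * N) := by
      gcongr; norm_num
    linarith [this.1]
  by_contra hcon
  push Not at hcon
  have : A u = 0 := by
    simp only [A]
    rw [Finset.sum_eq_zero, mul_zero]
    intro m hm
    by_contra hne
    have h1 : 0 < f (u + m • α) := lt_of_le_of_ne (hf0 _) (Ne.symm hne)
    have h2 := hf1 _ h1
    obtain ⟨i, hi⟩ := hcon m (Finset.mem_range.1 hm)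
    have h3 := norm_le_pi_norm (u + m • α) i
    simp only [Pi.add_apply, Pi.smul_apply] at h3
    linarith
  linarith

end

/-- `1` and the `θ ξ` are independent over the integers -/
def ZInd {Ω : Type} (θ : Ω → ℝ) : Prop :=
  ∀ (s : Finset Ω) (k : Ω → ℤ) (n : ℤ), ∑ x ∈ s, (k x : ℝ) * θ x = n → ∀ x ∈ s, k x = 0

theorem kron_finset {Ω : Type} {θ : Ω → ℝ} (hθ : ZInd θ) (s : Finset Ω) {η : ℝ} (hη : 0 < η) :
    ∃ n : ℕ, ∀ u : Ω → UnitAddCircle, ∃ m < n, ∀ x ∈ s, ‖u x + m • (θ x : UnitAddCircle)‖ < η := by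
  classical
  have hk : ∀ k : s → ℤ, k ≠ 0 →
      UnitAddTorus.mFourier k (fun i : s => (θ i : UnitAddCircle)) ≠ 1 := by
    intro k hk h1
    have h2 : UnitAddTorus.mFourier k (fun i : s => (θ i : UnitAddCircle)) =
        ((AddCircle.toCircle (∑ i : s, k i • ((θ i : ℝ) : UnitAddCircle)) : Circle) : ℂ) := by
      have : AddCircle.toCircle (∑ i : s, k i • ((θ i : ℝ) : UnitAddCircle)) =
          ∏ i : s, AddCircle.toCircle (k i • ((θ i : ℝ) : UnitAddCircle)) := by
        induction (Finset.univ : Finset s) using Finset.induction_on with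
        | empty => simp
        | insert a t ha ih =>
          rw [Finset.sum_insert ha, Finset.prod_insert ha, AddCircle.toCircle_add, ih]
      rw [this]
      simp only [UnitAddTorus.mFourier, ContinuousMap.coe_mk, fourier_apply]
      have hp := map_prod Circle.coeHom
        (fun i : s => AddCircle.toCircle (k i • ((θ i : ℝ) : UnitAddCircle))) Finset.univ
      exact hp.symm
    rw [h2] at h1
    have h3 : AddCircle.toCircle (∑ i : s, k i • ((θ i : ℝ) : UnitAddCircle)) =
        AddCircle.toCircle (0 : UnitAddCircle) := by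
      rw [AddCircle.toCircle_zero]
      apply Circle.ext
      rw [h1]; simp
    have h4 := AddCircle.injective_toCircle (one_ne_zero) h3
    have h5 : ∑ i : s, k i • ((θ i : ℝ) : UnitAddCircle) =
        ((∑ i : s, (k i : ℝ) * θ i : ℝ) : UnitAddCircle) := by
      induction (Finset.univ : Finset s) using Finset.induction_on with
      | empty => simp
      | insert a t ha ih =>
        rw [Finset.sum_insert ha, Finset.sum_insert ha, ih, AddCircle.coe_add]
        congr 1
        rw [← zsmul_eq_mul]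
        rfl
    rw [h5, AddCircle.coe_eq_zero_iff] at h4
    obtain ⟨n, hn⟩ := h4
    have h6 : ∑ x ∈ s, ((fun x : Ω => if hx : x ∈ s then k ⟨x, hx⟩ else 0) x : ℝ) * θ x = n := by
      rw [← Finset.sum_coe_sort s]
      simp only [Finset.coe_mem, dite_true, Subtype.coe_eta]
      rw [← hn]; simp
    have h7 := hθ s (fun x : Ω => if hx : x ∈ s then k ⟨x, hx⟩ else 0) n (by
      rw [← h6]
      )
    apply hk
    ext i
    have := h7 i i.2
    simpa using this
  obtain ⟨n, hn⟩ := kron_torus hk hη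
  refine ⟨n, fun u => ?_⟩
  obtain ⟨m, hm, h⟩ := hn fun i => u i
  exact ⟨m, hm, fun x hx => h ⟨x, hx⟩⟩

end Pool.Agent.Helper90.LSp
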