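import Pool.Agent.Helper90.LSp.Osc

set_option autoImplicit false
set_option linter.unusedSectionVars false

namespace Pool.Agent.Helper90.LSp

open Set

variable {Ω : Type} [LinearOrder Ω] [W1 Ω]

/-- restriction of a function to the initial segment below `N` -/
def res (N : Ω) (f : Ω → ℕ) : Ω → ℕ := fun x => if x < N then f x else 0

theorem res_lt {N x : Ω} (h : x < N) (f : Ω → ℕ) : res N f x = f x := by simp [res, h]

theorem res_ge {N x : Ω} (h : N ≤ x) (f : Ω → ℕ) : res N f x = 0 := by simp [res, not_lt.2 h]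

theorem res_res {N N' : Ω} (h : N ≤ N') (f : Ω → ℕ) : res N (res N' f) = res N f := by
  ext x
  by_cases h1 : x < N
  · rw [res_lt h1, res_lt h1, res_lt (h1.trans_le h)]
  · rw [res_ge (not_lt.1 h1), res_ge (not_lt.1 h1)]

theorem res_congr {N : Ω} {f g : Ω → ℕ} (h : ∀ x < N, f x = g x) : res N f = res N g := by
  ext x
  by_cases h1 : x < N
  · rw [res_lt h1, res_lt h1, h x h1]
  · rw [res_ge (not_lt.1 h1), res_ge (not_lt.1 h1)]

theorem countable_mod {A : Set Ω} (hA : A.Countable) (g : Ω → ℕ) :
    {f : Ω → ℕ | (∀ x, x ∉ A → f x = 0) ∧ {x | x ∈ A ∧ g x ≠ f x}.Finite}.Countable := by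
  classical
  have : Countable A := hA.to_subtype
  let Φ : Finset A × (A →₀ ℕ) → (Ω → ℕ) := fun q x =>
    if h : x ∈ A then (if (⟨x, h⟩ : A) ∈ q.1 then q.2 ⟨x, h⟩ else g x) else 0
  refine (countable_range Φ).mono ?_
  rintro f ⟨h1, h2⟩
  let D : Finset A := (h2.preimage Subtype.val_injective.injOn).toFinset
  have hD : ∀ x : A, x ∈ D ↔ g x ≠ f x := by
    intro x; simp [D]
  refine ⟨(D, Finsupp.onFinset D (fun x => if x ∈ D then f x else 0) ?_), ?_⟩
  · intro x hx
    by_contra h
    simp [h] at hx
  · ext x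
    by_cases hx : x ∈ A
    · by_cases hxD : (⟨x, hx⟩ : A) ∈ D
      · simp [Φ, hx, hxD]
      · have : g x = f x := by
          by_contra hne
          exact hxD ((hD ⟨x, hx⟩).2 hne)
        simp [Φ, hx, hxD, this]
    · simp [Φ, hx, h1 x hx]

/-- traces of the functions `e_b` -/
def etr (N : Ω) : Set (Ω → ℕ) := range (fun b => res N (fun x => e x b))

theorem etr_countable (N : Ω) : (etr N).Countable := by
  have h1 : ((fun b => res N (fun x => e x b)) '' Iic N).Countable :=
    (Iic_countable N).image _
  refine (h1.union (countable_mod (W1.cnt N) (fun x => e x N))).mono ?_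
  rintro _ ⟨b, rfl⟩
  rcases le_or_gt b N with h | h
  · exact Or.inl ⟨b, h, rfl⟩
  · refine Or.inr ⟨fun x hx => res_ge (not_lt.1 hx) _, ?_⟩
    refine (e_coherent b N h).subset ?_
    rintro x ⟨hx, hne⟩
    refine ⟨hx, ?_⟩
    have h3 : res N (fun x => e x b) x = e x b := res_lt hx _
    change e x N ≠ res N (fun x => e x b) x at hne
    rwa [h3] at hne

theorem mem_etr (N b : Ω) : res N (fun x => e x b) ∈ etr N := ⟨b, rfl⟩

theorem countable_finsets {α : Type} {s : Set α} (hs : s.Countable) :
    {T : Finset α | (T : Set α) ⊆ s}.Countable := by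
  classical
  have : Countable s := hs.to_subtype
  refine (countable_range (fun T : Finset s => T.image Subtype.val)).mono ?_
  intro T hT
  refine ⟨T.subtype (fun x => x ∈ s), ?_⟩
  ext x
  simp only [Finset.mem_image, Finset.mem_subtype, Subtype.exists, exists_and_right,
    exists_eq_right]
  constructor
  · rintro ⟨_, h⟩; exact h
  · intro h; exact ⟨hT h, h⟩

theorem exists_bound_lt {δ : Ω} (hlim : ∀ ν < δ, ∃ μ, ν < μ ∧ μ < δ) {E : Set Ω}
    (hE : E.Finite) (hEδ : ∀ x ∈ E, x < δ) {N : Ω} (hN : N < δ) :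
    ∃ N', N ≤ N' ∧ N' < δ ∧ ∀ x ∈ E, x < N' := by
  have hne : (insert N hE.toFinset).Nonempty := ⟨N, Finset.mem_insert_self _ _⟩
  have h1 : (insert N hE.toFinset).max' hne < δ := by
    rw [Finset.max'_lt_iff]
    intro y hy
    rcases Finset.mem_insert.1 hy with rfl | h
    · exact hN
    · exact hEδ y (hE.mem_toFinset.1 h)
  obtain ⟨μ, h2, h3⟩ := hlim _ h1
  refine ⟨μ, ((Finset.le_max' _ N (Finset.mem_insert_self _ _)).trans h2.le), h3, ?_⟩
  intro x hx
  exact (Finset.le_max' _ x (Finset.mem_insert_of_mem (hE.mem_toFinset.2 hx))).trans_lt h2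

theorem e_fin_diff {δ b : Ω} (h : δ ≤ b) : {x | x < δ ∧ e x δ ≠ e x b}.Finite := by
  rcases eq_or_lt_of_le h with rfl | h
  · simp
  · exact e_coherent b δ h

/-- the traces of the functions `om b` are countable -/
theorem om_trace : ∀ α : Ω, (range fun b : Ω => res α (om b)).Countable := by
  intro α
  induction α using WellFoundedLT.induction with
  | _ α ih =>
    by_cases hlim : ∀ ν < α, ∃ μ, ν < μ ∧ μ < α
    · by_cases hmin : ∃ d, d < α
      · obtain ⟨d0, hd0⟩ := hmin
        -- limit case
        let Cand : Set (Finset Ω × Ω × (Ω → ℕ) × (Ω → ℕ)) :=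
          {q | (q.1 : Set Ω) ⊆ Iio α ∧ q.2.1 ∈ Iio α ∧ q.2.2.1 ∈ etr α ∧
            q.2.2.2 ∈ ⋃ μ ∈ Iio α, range fun b : Ω => res μ (om b)}
        have hCand : Cand.Countable := by
          have h1 := (countable_finsets (W1.cnt α)).prod ((W1.cnt α).prod
            ((etr_countable α).prod ((W1.cnt α).biUnion fun μ hμ => ih μ hμ)))
          refine h1.mono ?_
          rintro ⟨a, b, c, d⟩ ⟨h1, h2, h3, h4⟩
          exact ⟨h1, h2, h3, h4⟩
        let Φ : Finset Ω × Ω × (Ω → ℕ) × (Ω → ℕ) → (Ω → ℕ) := fun q x =>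
          if x < q.2.1 then q.2.2.2 x else if x < α then
            oc (fun y => e y x) q.2.2.1 (q.1 ∪ L x α) + 1 else 0
        have h1 : ((fun b => res α (om b)) '' Iic α).Countable := (Iic_countable α).image _
        refine (h1.union (hCand.image Φ)).mono ?_
        rintro _ ⟨b, rfl⟩
        rcases le_or_gt b α with h | h
        · exact Or.inl ⟨b, h, rfl⟩
        · right
          obtain ⟨μ0, _, hμ0, hμ1⟩ := exists_bound_lt hlim (L α b).finite_toSet
            (fun x hx => L_lt α b x hx) hd0
          obtain ⟨ν, hν, hμν⟩ := Cs_cof hμ0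
          obtain ⟨μ, hμ, hμα⟩ := hlim ν (Cs_lt hν)
          refine ⟨(L α b, μ, res α (fun x => e x b), res μ (om b)), ⟨?_, hμα, ⟨b, rfl⟩, ?_⟩, ?_⟩
          · exact fun x hx => L_lt α b x hx
          · rw [mem_iUnion₂]
            exact ⟨μ, hμα, ⟨b, rfl⟩⟩
          · ext x
            simp only [Φ]
            by_cases hx : x < μ
            · rw [if_pos hx, res_lt hx, res_lt (hx.trans hμα)]
            · rw [if_neg hx]
              by_cases hxα : x < α
              · rw [if_pos hxα, res_lt hxα, om_lt (hxα.trans h)]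
                congr 1
                have hνx : ν < x := hμ.trans_le (not_lt.1 hx)
                have hLc := L_concat hxα hν hνx b h.le
                  (fun y hy => (hμ1 y hy).trans_le hμν)
                rw [osc, hLc]
                apply oc_congr
                · intro y _; rfl
                · intro y hy
                  apply res_lt
                  rcases Finset.mem_union.1 hy with h5 | h5
                  · exact L_lt _ _ y h5
                  · exact (L_lt _ _ y h5).trans hxα
              · rw [if_neg hxα, res_ge (not_lt.1 hxα)]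
      · push Not at hmin
        refine (countable_singleton (fun _ : Ω => 0)).mono ?_
        rintro _ ⟨b, rfl⟩
        ext x
        exact res_ge (hmin x) _
    · push Not at hlim
      obtain ⟨ν, hν, hνm⟩ := hlim
      refine (((ih ν hν).prod (countable_univ (α := ℕ))).image
        (fun q : (Ω → ℕ) × ℕ => fun x => if x = ν then q.2 else q.1 x)).mono ?_
      rintro _ ⟨b, rfl⟩
      refine ⟨(res ν (om b), om b ν), ⟨⟨b, rfl⟩, mem_univ _⟩, ?_⟩
      ext x
      by_cases hx : x = ν
      · subst hx
        simp [res_lt hν]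
      · simp only [hx, if_false]
        rcases lt_or_gt_of_ne hx with h | h
        · rw [res_lt h, res_lt (h.trans hν)]
        · rw [res_ge h.le, res_ge (hνm x h)]

end Pool.Agent.Helper90.LSp
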