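import Pool.Agent.Helper90.LSp.Kapi
import Pool.Agent.Helper90.LSp.Trace

set_option autoImplicit false
set_option linter.unusedSectionVars false

namespace Pool.Agent.Helper90.LSp

open Set Filter Topology

variable {Ω : Type} [LinearOrder Ω] [W1 Ω]

/-- points of the filter `KF` -/
abbrev Pt (Ω : Type) := Ω × (Ω → ℝ)

open Classical in
/-- the type of a pair at level `N` -/
noncomputable def Ty (mv : Pt Ω × Pt Ω → Finset Ω) (q : Pt Ω × Pt Ω) (N : Ω) :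
    Finset (Ω → ℕ) := (mv q).image (fun ξ => res N (fun x => e x ξ))

open Classical in
theorem Ty_res {mv : Pt Ω × Pt Ω → Finset Ω} {q : Pt Ω × Pt Ω} {N N' : Ω} (h : N ≤ N') :
    (Ty mv q N').image (res N) = Ty mv q N := by
  unfold Ty
  rw [Finset.image_image]
  congr 1
  ext ξ : 1
  exact res_res h _

theorem Ty_etr (mv : Pt Ω × Pt Ω → Finset Ω) (q : Pt Ω × Pt Ω) (N : Ω) :
    (Ty mv q N : Set (Ω → ℕ)) ⊆ etr N := by
  intro f hf
  simp only [Ty, Finset.coe_image, mem_image, Finset.mem_coe] at hf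
  obtain ⟨ξ, _, rfl⟩ := hf
  exact mem_etr N ξ

variable {S : Set (Ω → ℝ)} {B : Set Ω} {H : Filter (Ω → ℝ)}

/-- there are many pairs of the given type -/
def Large (hH : HF S B H) (P : Pt Ω × Pt Ω → Prop) (mv : Pt Ω × Pt Ω → Finset Ω) (N : Ω)
    (T : Finset (Ω → ℕ)) : Prop :=
  ∃ᶠ q in (KF hH).curry (KF hH), P q ∧ Ty mv q N = T

open Classical in
/-- extension of a type by a given function -/
noncomputable def glue (N ν : Ω) (T : Finset (Ω → ℕ)) (f : Ω → ℕ) : Finset (Ω → ℕ) :=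
  T.image (fun σ x => if x < N then σ x else if x < ν then f x else 0)

/-- the types of the pairs cohere with `δ` -/
def Gam (hH : HF S B H) (P : Pt Ω × Pt Ω → Prop) (mv : Pt Ω × Pt Ω → Finset Ω) (N : Ω)
    (T : Finset (Ω → ℕ)) (δ : Ω) : Prop :=
  ∀ ν, N ≤ ν → ν < δ → Large hH P mv ν (glue N ν T (fun x => e x δ))

variable {hH : HF S B H} {P : Pt Ω × Pt Ω → Prop} {mv : Pt Ω × Pt Ω → Finset Ω}

theorem Large.res_eq {N : Ω} {T : Finset (Ω → ℕ)} (h : Large hH P mv N T) :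
    ∀ σ ∈ T, res N σ = σ := by
  classical
  obtain ⟨q, _, rfl⟩ := h.exists
  intro σ hσ
  simp only [Ty, Finset.mem_image] at hσ
  obtain ⟨ξ, _, rfl⟩ := hσ
  exact res_res le_rfl _

open Classical in
theorem Large.image_res {N : Ω} {T : Finset (Ω → ℕ)} (h : Large hH P mv N T) :
    T.image (res N) = T := by
  obtain ⟨q, _, rfl⟩ := h.exists
  exact Ty_res le_rfl

theorem ev_gt (hH : HF S B H) (δ : Ω) : ∀ᶠ q in (KF hH).curry (KF hH), δ < q.1.1 := by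
  rw [eventually_curry_iff]
  filter_upwards [KF_gt hH δ] with p hp
  exact Eventually.of_forall fun _ => hp

open Classical in
theorem claim (hmv : ∀ q, ∀ ξ ∈ mv q, q.1.1 ≤ ξ) {N δ : Ω} {T : Finset (Ω → ℕ)}
    (hlim : ∀ ν < δ, ∃ μ, ν < μ ∧ μ < δ) (hN : N < δ) (hL : Large hH P mv N T) :
    ∃ N', N ≤ N' ∧ N' < δ ∧ ∃ T' : Finset (Ω → ℕ), T'.image (res N) = T ∧
      (T' : Set (Ω → ℕ)) ⊆ etr N' ∧ Large hH P mv N' T' ∧ Gam hH P mv N' T' δ := by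
  have := KF_countable hH
  have := curry_countable (KF hH) (KF hH)
  have h1 : ∃ᶠ q in (KF hH).curry (KF hH), ∃ N' ∈ Iio δ, (P q ∧ Ty mv q N = T) ∧ N ≤ N' ∧
      ∀ ξ ∈ mv q, ∀ x, N' ≤ x → x < δ → e x δ = e x ξ := by
    refine (hL.and_eventually (ev_gt hH δ)).mono ?_
    rintro q ⟨h1, h2⟩
    have hfin : (⋃ ξ ∈ (mv q : Set Ω), {x | x < δ ∧ e x δ ≠ e x ξ}).Finite :=
      (mv q).finite_toSet.biUnion fun ξ hξ => e_fin_diff (h2.le.trans (hmv q ξ hξ))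
    obtain ⟨N', h3, h4, h5⟩ := exists_bound_lt hlim hfin (by
      intro x hx
      simp only [mem_iUnion] at hx
      obtain ⟨_, _, hx⟩ := hx
      exact hx.1) hN
    refine ⟨N', h4, h1, h3, fun ξ hξ x hx hxδ => ?_⟩
    by_contra hne
    have := h5 x (by
      simp only [mem_iUnion]
      exact ⟨ξ, hξ, hxδ, hne⟩)
    exact absurd this (not_lt.2 hx)
  obtain ⟨N', hN', h2⟩ := freq_countable (W1.cnt δ) h1
  have h3 : ∃ᶠ q in (KF hH).curry (KF hH), ∃ T' ∈ {T' : Finset (Ω → ℕ) | (T' : Set _) ⊆ etr N'},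
      ((P q ∧ Ty mv q N = T) ∧ N ≤ N' ∧
      ∀ ξ ∈ mv q, ∀ x, N' ≤ x → x < δ → e x δ = e x ξ) ∧ Ty mv q N' = T' :=
    h2.mono fun q hq => ⟨Ty mv q N', Ty_etr mv q N', hq, rfl⟩
  obtain ⟨T', hT', h4⟩ := freq_countable (countable_finsets (etr_countable N')) h3
  obtain ⟨q0, hq0⟩ := h4.exists
  refine ⟨N', hq0.1.2.1, hN', T', ?_, hT', ?_, ?_⟩
  · rw [← hq0.2, Ty_res hq0.1.2.1, hq0.1.1.2]
  · exact h4.mono fun q hq => ⟨hq.1.1.1, hq.2⟩
  · intro ν hν hνδ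
    refine h4.mono fun q hq => ⟨hq.1.1.1, ?_⟩
    rw [← hq.2]
    unfold glue Ty
    rw [Finset.image_image]
    apply Finset.image_congr
    intro ξ hξ
    ext x
    simp only [Function.comp]
    by_cases hx : x < N'
    · rw [if_pos hx, res_lt hx, res_lt (hx.trans_le hν)]
    · rw [if_neg hx]
      by_cases hx' : x < ν
      · rw [if_pos hx', res_lt hx']
        exact (hq.1.2.2 ξ hξ x (not_lt.1 hx) (hx'.trans hνδ)).symm
      · rw [if_neg hx', res_ge (not_lt.1 hx')]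

open Classical in
theorem nu0 (hmv : ∀ q, ∀ ξ ∈ mv q, q.1.1 ≤ ξ) {N : Ω} {T : Finset (Ω → ℕ)}
    (hL : Large hH P mv N T) :
    ∃ ν0, ∀ D : Finset Ω, (∀ x ∈ D, ν0 ≤ x) → ∀ n0 : ℕ, ∀ N1, N ≤ N1 → (∀ x ∈ D, x < N1) →
      ∃ T1 : Finset (Ω → ℕ), T1.image (res N) = T ∧ Large hH P mv N1 T1 ∧
        ∀ σ ∈ T1, ∀ x ∈ D, n0 < σ x := by
  have := KF_countable hH
  have := curry_countable (KF hH) (KF hH)
  by_contra hcon
  push Not at hcon
  let Bad : Finset Ω → ℕ → Prop := fun D n0 =>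
    ∀ᶠ q in (KF hH).curry (KF hH), (P q ∧ Ty mv q N = T) → ∃ ξ ∈ mv q, ∃ x ∈ D, e x ξ ≤ n0
  have hbad : ∀ ν0 : Ω, ∃ D n0, (∀ x ∈ D, ν0 ≤ x) ∧ Bad D n0 := by
    intro ν0
    obtain ⟨D, hD, n0, N1, hN1, hDN1, h⟩ := hcon ν0
    refine ⟨D, n0, hD, ?_⟩
    by_contra hnb
    have h1 : ∃ᶠ q in (KF hH).curry (KF hH),
        ∃ T1 ∈ {T' : Finset (Ω → ℕ) | (T' : Set _) ⊆ etr N1},
        ((P q ∧ Ty mv q N = T) ∧ ∀ ξ ∈ mv q, ∀ x ∈ D, n0 < e x ξ) ∧ Ty mv q N1 = T1 := by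
      refine (not_eventually.1 hnb).mono fun q hq => ?_
      push Not at hq
      exact ⟨Ty mv q N1, Ty_etr mv q N1, ⟨hq.1, hq.2⟩, rfl⟩
    obtain ⟨T1, hT1, h2⟩ := freq_countable (countable_finsets (etr_countable N1)) h1
    obtain ⟨q0, hq0⟩ := h2.exists
    obtain ⟨σ, hσ, x, hx, hle⟩ := h T1 (by rw [← hq0.2, Ty_res hN1, hq0.1.1.2])
      (h2.mono fun q hq => ⟨hq.1.1.1, hq.2⟩)
    rw [← hq0.2] at hσ
    simp only [Ty, Finset.mem_image] at hσ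
    obtain ⟨ξ, hξ, rfl⟩ := hσ
    rw [res_lt (hDN1 x hx)] at hle
    exact absurd (hq0.1.2 ξ hξ x hx) (not_lt.2 hle)
  have hbad' : ∃ n0, ∀ ν0 : Ω, ∃ D, (∀ x ∈ D, ν0 ≤ x) ∧ Bad D n0 := by
    by_contra hno
    push Not at hno
    choose ν hν using hno
    obtain ⟨b, hb⟩ := exists_gt_seq ν
    obtain ⟨D, n0, hD, hB⟩ := hbad b
    exact hν n0 D (fun x hx => (hb n0).le.trans (hD x hx)) hB
  obtain ⟨n0, hn0⟩ := hbad'
  choose D hD hB using hn0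
  have hbd : ∀ ν : Ω, ∃ b, ν < b ∧ ∀ x ∈ D ν, x < b := by
    intro ν
    obtain ⟨b, hb⟩ := exists_gt_of_countable (Ω := Ω) (A := insert ν (D ν : Set Ω))
      ((D ν).countable_toSet.insert ν)
    exact ⟨b, hb ν (mem_insert _ _), fun x hx => hb x (mem_insert_of_mem _ hx)⟩
  choose bd hbd1 hbd2 using hbd
  let s : ℕ → Ω := fun k => Nat.rec (Classical.arbitrary Ω) (fun _ x => bd x) k
  have hs : ∀ k, s (k + 1) = bd (s k) := fun k => rfl
  have hsm : StrictMono s := strictMono_nat_of_lt_succ fun k => by rw [hs]; exact hbd1 _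
  obtain ⟨b, hb⟩ := exists_gt_seq s
  have hev : ∀ᶠ q in (KF hH).curry (KF hH), ∀ k, (P q ∧ Ty mv q N = T) →
      ∃ ξ ∈ mv q, ∃ x ∈ D (s k), e x ξ ≤ n0 := by
    rw [eventually_countable_forall]
    exact fun k => hB (s k)
  obtain ⟨q, hq, h1, h2⟩ := (hL.and_eventually (hev.and (ev_gt hH b))).exists
  have h3 : ∀ k, ∃ x, s k ≤ x ∧ x < s (k + 1) ∧ ∃ ξ ∈ mv q, e x ξ ≤ n0 := by
    intro k
    obtain ⟨ξ, hξ, x, hx, hle⟩ := h1 k hq
    exact ⟨x, hD _ x hx, by rw [hs]; exact hbd2 _ x hx, ξ, hξ, hle⟩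
  choose x hx1 hx2 ξ hξ hle using h3
  have hinj : StrictMono x := strictMono_nat_of_lt_succ fun k => (hx2 k).trans_le (hx1 (k + 1))
  have hfin : (⋃ ξ ∈ (mv q : Set Ω), {x | x < ξ ∧ e x ξ ≤ n0}).Finite :=
    (mv q).finite_toSet.biUnion fun ξ _ => e_finite_to_one ξ n0
  refine (infinite_range_of_injective hinj.injective) (hfin.subset ?_)
  rintro _ ⟨k, rfl⟩
  simp only [mem_iUnion]
  exact ⟨ξ k, hξ k, ((hx2 k).trans (hb (k + 1))).trans (h2.trans_le (hmv q _ (hξ k))), hle k⟩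

end Pool.Agent.Helper90.LSp
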