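import Pool.Agent.Helper90.LSp.Basic
import Pool.Agent.Helper90.LSp.Kron

set_option autoImplicit false

namespace Pool.Agent.Helper90.LSp

open Set

variable {Ω : Type} [LinearOrder Ω] [W1 Ω]

theorem exists_not_span (ξ : Ω) (f : ∀ η : Ω, η < ξ → ℝ) :
    ∃ r : ℝ, r ∉ Submodule.span ℚ (range (fun o : Option (Iio ξ) =>
      o.elim 1 (fun η => f η.1 η.2))) := by
  have : Countable (Iio ξ) := (W1.cnt ξ).to_subtype
  have h1 : Countable (Submodule.span ℚ (range (fun o : Option (Iio ξ) =>
      o.elim (1 : ℝ) (fun η => f η.1 η.2)))) := inferInstance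
  by_contra h
  push Not at h
  have h2 : (univ : Set ℝ).Countable := by
    have h3 : ((Submodule.span ℚ (range (fun o : Option (Iio ξ) =>
      o.elim (1 : ℝ) (fun η => f η.1 η.2))) : Submodule ℚ ℝ) : Set ℝ).Countable := h1
    exact h3.mono fun x _ => h x
  exact Cardinal.not_countable_real h2

/-- rationally independent reals, by recursion -/
noncomputable def th : Ω → ℝ :=
  (wellFounded_lt (α := Ω)).fix (fun ξ ih => Classical.choose (exists_not_span ξ ih))

theorem th_spec (ξ : Ω) : th ξ ∉ Submodule.span ℚ (range (fun o : Option (Iio ξ) =>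
      o.elim (1 : ℝ) (fun η => th η.1))) := by
  have h := Classical.choose_spec (exists_not_span ξ (fun η _ => th η))
  have h2 : th ξ = Classical.choose (exists_not_span ξ (fun η _ => th η)) := by
    unfold th
    rw [WellFounded.fix_eq]
  rw [← h2] at h
  exact h

theorem th_ind : ZInd (th (Ω := Ω)) := by
  classical
  intro s k n hsum
  by_contra hcon
  push Not at hcon
  obtain ⟨x0, hx0, hk0⟩ := hcon
  have hne : (s.filter fun x => k x ≠ 0).Nonempty := ⟨x0, Finset.mem_filter.2 ⟨hx0, hk0⟩⟩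
  set ξ := (s.filter fun x => k x ≠ 0).max' hne with hξ
  have hξm := Finset.mem_filter.1 (Finset.max'_mem _ hne)
  rw [← hξ] at hξm
  have hmax : ∀ x ∈ s, ξ < x → k x = 0 := by
    intro x hx hlt
    by_contra hkx
    exact absurd (Finset.le_max' _ x (Finset.mem_filter.2 ⟨hx, hkx⟩)) (not_le.2 hlt)
  apply th_spec ξ
  set W := Submodule.span ℚ (range (fun o : Option (Iio ξ) =>
      o.elim (1 : ℝ) (fun η => th η.1))) with hW
  have h1 : (1 : ℝ) ∈ W := Submodule.subset_span ⟨none, rfl⟩
  have hη : ∀ η < ξ, th η ∈ W := fun η hη => Submodule.subset_span ⟨some ⟨η, hη⟩, rfl⟩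
  have hsplit : (k ξ : ℝ) * th ξ = n - ∑ x ∈ s.filter (fun x => x < ξ), (k x : ℝ) * th x := by
    rw [← hsum, ← Finset.add_sum_erase s _ hξm.1]
    have : ∑ x ∈ s.erase ξ, (k x : ℝ) * th x =
        ∑ x ∈ s.filter (fun x => x < ξ), (k x : ℝ) * th x := by
      symm
      apply Finset.sum_subset
      · intro x hx
        rw [Finset.mem_filter] at hx
        exact Finset.mem_erase.2 ⟨hx.2.ne, hx.1⟩
      · intro x hx hx'
        rw [Finset.mem_erase] at hx
        rw [Finset.mem_filter, not_and, not_lt] at hx'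
        have := hmax x hx.2 (lt_of_le_of_ne (hx' hx.2) (Ne.symm hx.1))
        simp [this]
    rw [this]; ring
  have hmem : (k ξ : ℝ) * th ξ ∈ W := by
    rw [hsplit]
    apply W.sub_mem
    · have := W.smul_mem (n : ℚ) h1
      rw [Rat.smul_def] at this
      simpa using this
    · apply W.sum_mem
      intro x hx
      have := W.smul_mem (k x : ℚ) (hη x (Finset.mem_filter.1 hx).2)
      rw [Rat.smul_def] at this
      simpa using this
  have hk : (k ξ : ℝ) ≠ 0 := by exact_mod_cast hξm.2
  have := W.smul_mem ((k ξ : ℚ)⁻¹) hmem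
  rw [Rat.smul_def] at this
  have h2 : (((k ξ : ℚ)⁻¹ : ℚ) : ℝ) * ((k ξ : ℝ) * th ξ) = th ξ := by
    push_cast
    field_simp
  rwa [h2] at this

end Pool.Agent.Helper90.LSp
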