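import Pool.Agent.Helper90.LSp.Core
import Pool.Agent.Helper90.LSp.Theta

set_option autoImplicit false
set_option linter.unusedSectionVars false

namespace Pool.Agent.Helper90.LSp

open Set Filter Topology

variable {Ω : Type} [LinearOrder Ω] [W1 Ω]

/-- The main combinatorial theorem. -/
theorem MT {θ : Ω → ℝ} (hθ : ZInd θ) {S : Set (Ω → ℝ)} {B : Set Ω} (h1 : SeqComp S)
    (h2 : ∀ x ∈ S, ∀ b ∈ B, x b = 0 → ∀ ε : ℝ, 0 < ε → ∃ (a : Finset Ω) (η : ℝ), 0 < η ∧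
      ∀ g ∈ B, (∀ ξ ∈ a, ‖om g ξ • (θ ξ : UnitAddCircle) - om b ξ • (θ ξ : UnitAddCircle)‖ < η) →
        |x g| < ε)
    (h3 : ∀ x ∈ S, ∃ b ∈ B, x b ≠ 0)
    (h4 : ∀ N : Set Ω, N.Countable → ∃ x ∈ S, ∀ b ∈ N, b ∈ B → x b = 0) : False := by
  classical
  obtain ⟨H, hH⟩ := exists_H h1 h4
  have := KF_countable hH
  have := KF_neBot h1 hH
  have := curry_countable (KF hH) (KF hH)
  choose! bs hbsB hbs using h3
  obtain ⟨ε, hε, hfε⟩ : ∃ ε : ℝ, 0 < ε ∧ ∃ᶠ p in KF hH, p.2 ∈ S ∧ ε < |p.2 (bs p.2)| := by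
    have h5 : ∃ᶠ p in KF hH, ∃ k ∈ (univ : Set ℕ), p.2 ∈ S ∧
        1 / ((k : ℝ) + 1) < |p.2 (bs p.2)| := by
      refine (KF_S hH).frequently.mono fun p hp => ?_
      obtain ⟨k, hk⟩ := exists_nat_one_div_lt (abs_pos.2 (hbs p.2 hp))
      exact ⟨k, mem_univ _, hp, hk⟩
    obtain ⟨k, _, hk⟩ := freq_countable countable_univ h5
    exact ⟨_, Nat.one_div_pos_of_nat, hk⟩
  have hsupp : ∀ x x' : Ω → ℝ, ∃ (a : Finset Ω) (η : ℝ), x ∈ S → x' ∈ S → x' (bs x) = 0 →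
      0 < η ∧ ∀ g ∈ B, (∀ ξ ∈ a, ‖om g ξ • (θ ξ : UnitAddCircle) -
        om (bs x) ξ • (θ ξ : UnitAddCircle)‖ < η) → |x' g| < ε := by
    intro x x'
    by_cases h : x ∈ S ∧ x' ∈ S ∧ x' (bs x) = 0
    · obtain ⟨a, η, h5, h6⟩ := h2 x' h.2.1 (bs x) (hbsB x h.1) h.2.2 ε hε
      exact ⟨a, η, fun _ _ _ => ⟨h5, h6⟩⟩
    · exact ⟨∅, 0, fun h5 h6 h7 => absurd ⟨h5, h6, h7⟩ h⟩
  choose sp et hsp using hsupp
  let P0 : Pt Ω × Pt Ω → Prop := fun q => q.1.2 ∈ S ∧ q.2.2 ∈ S ∧ ε < |q.1.2 (bs q.1.2)| ∧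
    q.1.1 ≤ bs q.1.2 ∧ q.2.2 (bs q.1.2) = 0
  have hP0 : ∃ᶠ q in (KF hH).curry (KF hH), P0 q := by
    rw [frequently_curry_iff]
    refine (hfε.and_eventually (KF_zero hH)).mono ?_
    rintro p ⟨⟨hpS, hpε⟩, hp0⟩
    have h5 : ∀ᶠ p' in KF hH, P0 (p, p') := by
      filter_upwards [KF_S hH, KF_zero hH, KF_gt hH (bs p.2)] with p' h6 h7 h8
      refine ⟨hpS, h6, hpε, ?_, h7 _ h8 (hbsB _ hpS)⟩
      by_contra hlt
      push Not at hlt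
      have := hp0 _ hlt (hbsB _ hpS)
      exact hbs _ hpS this
    exact h5.frequently
  let mv : Pt Ω × Pt Ω → Finset Ω := fun q => (sp q.1.2 q.2.2).filter (fun ξ => q.1.1 ≤ ξ)
  let rt : Pt Ω × Pt Ω → Finset Ω := fun q => (sp q.1.2 q.2.2).filter (fun ξ => ξ < q.1.1)
  obtain ⟨N0⟩ : Nonempty Ω := inferInstance
  -- pressing down
  obtain ⟨ν, hν⟩ : ∃ ν, ∃ᶠ q in (KF hH).curry (KF hH), P0 q ∧ ∀ ξ ∈ rt q, ξ ≤ ν := by
    have h5 : ∃ᶠ p in KF hH, ∃ ν < p.1, ∃ᶠ p' in KF hH, P0 (p, p') ∧ ∀ ξ ∈ rt (p, p'), ξ ≤ ν := by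
      refine ((frequently_curry_iff _).1 hP0 |>.and_eventually
        ((KF_limit hH).and (KF_gt hH N0))).mono ?_
      rintro p ⟨hp, hlim, hN0⟩
      refine freq_countable (W1.cnt p.1) (hp.mono fun p' h => ?_)
      obtain ⟨ν', _, h6, h7⟩ := exists_bound_lt hlim (rt (p, p')).finite_toSet (by
        intro z hz
        have := (Finset.mem_filter.1 hz).2
        exact this) hN0
      exact ⟨ν', h6, h, fun ξ hξ => (h7 ξ hξ).le⟩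
    obtain ⟨ν, hν⟩ := KF_fodor hH h5
    exact ⟨ν, (frequently_curry_iff _).2 (hν.mono fun p hp => hp.2)⟩
  -- fix the root
  obtain ⟨R, _, hR⟩ := freq_countable (countable_finsets (Iic_countable ν))
    (Q := fun R q => P0 q ∧ rt q = R)
    (hν.mono fun q hq => ⟨rt q, fun ξ hξ => hq.2 ξ hξ, hq.1, rfl⟩)
  -- fix the size
  obtain ⟨k, _, hk⟩ := freq_countable (R := (univ : Set ℕ)) countable_univ
    (Q := fun k q => (P0 q ∧ rt q = R) ∧ 1 / ((k : ℝ) + 1) < et q.1.2 q.2.2)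
    (hR.mono fun q hq => by
      obtain ⟨k, hk⟩ := exists_nat_one_div_lt
        (hsp q.1.2 q.2.2 hq.1.1 hq.1.2.1 hq.1.2.2.2.2).1
      exact ⟨k, mem_univ _, hq, hk⟩)
  set η := 1 / ((k : ℝ) + 1) with hη
  have hηpos : 0 < η := Nat.one_div_pos_of_nat
  -- fix the bound
  obtain ⟨n, _, hn⟩ := freq_countable (R := (univ : Set ℕ)) countable_univ
    (Q := fun n q => ((P0 q ∧ rt q = R) ∧ η < et q.1.2 q.2.2) ∧ ∀ u : Ω → UnitAddCircle,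
      ∃ m < n, ∀ x ∈ mv q, ‖u x + m • (θ x : UnitAddCircle)‖ < η)
    (hk.mono fun q hq => by
      obtain ⟨n, hn⟩ := kron_finset hθ (mv q) hηpos
      exact ⟨n, mem_univ _, hq, hn⟩)
  -- fix the values on the root
  obtain ⟨v, _, hv⟩ := freq_countable (R := (univ : Set (R → ℕ))) countable_univ
    (Q := fun v q => (((P0 q ∧ rt q = R) ∧ η < et q.1.2 q.2.2) ∧ ∀ u : Ω → UnitAddCircle,
      ∃ m < n, ∀ x ∈ mv q, ‖u x + m • (θ x : UnitAddCircle)‖ < η) ∧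
      ∀ z : R, om (bs q.1.2) z = v z)
    (hn.mono fun q hq => ⟨fun z => om (bs q.1.2) z, mem_univ _, hq, fun z => rfl⟩)
  let v' : Ω → ℕ := fun z => if h : z ∈ R then v ⟨z, h⟩ else 0
  have hv' : ∀ z (hz : z ∈ R), v' z = v ⟨z, hz⟩ := by
    intro z hz; simp [v', hz]
  obtain ⟨q, ⟨⟨⟨⟨hq0, hqR⟩, hqη⟩, hqn⟩, hqv⟩, bb, u, hbb⟩ := core (ε := ε) (R := R) (v := v')
    (mv := mv) (hH := hH) (fun q ξ hξ => (Finset.mem_filter.1 hξ).2) hv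
    (fun q hq => hq.1.1.1.1.1) (fun q hq => hq.1.1.1.1.2.1)
    (fun q hq => ⟨bs q.1.2, hbsB _ hq.1.1.1.1.1, hq.1.1.1.1.2.2.2.1, hq.1.1.1.1.2.2.1,
      fun z hz => by rw [hv' z hz]; exact hq.2 ⟨z, hz⟩⟩) n
  obtain ⟨m, hm, hmη⟩ := hqn fun x => u x • (θ x : UnitAddCircle) -
    om (bs q.1.2) x • (θ x : UnitAddCircle)
  obtain ⟨g1, g2, g3, g4⟩ := hbb m hm.le
  have hfin := (hsp q.1.2 q.2.2 hq0.1 hq0.2.1 hq0.2.2.2.2).2 (bb m) g1 (by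
    intro ξ hξ
    rcases lt_or_ge ξ q.1.1 with h | h
    · have hξR : ξ ∈ R := by
        rw [← hqR]; exact Finset.mem_filter.2 ⟨hξ, h⟩
      rw [g3 ξ hξR, hv' ξ hξR, ← hqv ⟨ξ, hξR⟩, sub_self, norm_zero]
      exact hηpos.trans hqη
    · have hξm : ξ ∈ mv q := Finset.mem_filter.2 ⟨hξ, h⟩
      rw [g4 ξ hξm, add_smul]
      have := hmη ξ hξm
      rw [show (u ξ • (θ ξ : UnitAddCircle) + m • (θ ξ : UnitAddCircle)) -
        om (bs q.1.2) ξ • (θ ξ : UnitAddCircle) = u ξ • (θ ξ : UnitAddCircle) -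
        om (bs q.1.2) ξ • (θ ξ : UnitAddCircle) + m • (θ ξ : UnitAddCircle) by abel]
      exact this.trans hqη)
  exact absurd hfin (not_lt.2 g2.le)

end Pool.Agent.Helper90.LSp
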