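import Pool.Agent.Helper90.LSp.Coherent

set_option autoImplicit false

namespace Pool.Agent.Helper90.LSp

open Set

variable {Ω : Type} [LinearOrder Ω]

/-- `η` is an oscillation point of `f, g` on `F` -/
def IsOsc (f g : Ω → ℕ) (F : Finset Ω) (η : Ω) : Prop :=
  g η < f η ∧ ∃ η' ∈ F, η' < η ∧ (∀ ζ ∈ F, ζ < η → ζ ≤ η') ∧ f η' ≤ g η'

open Classical in
/-- the oscillation number of `f, g` on `F` -/
noncomputable def oc (f g : Ω → ℕ) (F : Finset Ω) : ℕ := (F.filter (IsOsc f g F)).card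

theorem oc_congr {f g f' g' : Ω → ℕ} {F : Finset Ω} (hf : ∀ x ∈ F, f x = f' x)
    (hg : ∀ x ∈ F, g x = g' x) : oc f g F = oc f' g' F := by
  classical
  unfold oc
  congr 1
  apply Finset.filter_congr
  intro x hx
  unfold IsOsc
  rw [hf x hx, hg x hx]
  constructor
  · rintro ⟨h1, y, hy, h2, h3, h4⟩
    exact ⟨h1, y, hy, h2, h3, by rw [← hf y hy, ← hg y hy]; exact h4⟩
  · rintro ⟨h1, y, hy, h2, h3, h4⟩
    exact ⟨h1, y, hy, h2, h3, by rw [hf y hy, hg y hy]; exact h4⟩

open Classical in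
theorem oc_union {f g : Ω → ℕ} {F E : Finset Ω} (h : ∀ x ∈ F, ∀ y ∈ E, x < y) :
    oc f g (F ∪ E) = oc f g F + (E.filter (IsOsc f g (F ∪ E))).card := by
  unfold oc
  rw [Finset.filter_union, Finset.card_union_of_disjoint]
  · congr 2
    apply Finset.filter_congr
    intro x hx
    unfold IsOsc
    constructor
    · rintro ⟨h1, y, hy, h2, h3, h4⟩
      have hyF : y ∈ F := by
        rcases Finset.mem_union.1 hy with h5 | h5
        · exact h5
        · exact absurd (h x hx y h5) (not_lt.2 h2.le)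
      exact ⟨h1, y, hyF, h2, fun z hz => h3 z (Finset.mem_union_left _ hz), h4⟩
    · rintro ⟨h1, y, hy, h2, h3, h4⟩
      refine ⟨h1, y, Finset.mem_union_left _ hy, h2, fun z hz hzx => ?_, h4⟩
      rcases Finset.mem_union.1 hz with h5 | h5
      · exact h3 z h5 hzx
      · exact absurd (h x hx z h5) (not_lt.2 hzx.le)
  · rw [Finset.disjoint_left]
    intro x hx hx'
    rw [Finset.mem_filter] at hx hx'
    exact absurd (h x hx.1 x hx'.1) (lt_irrefl _)

theorem oc_append {f g : Ω → ℕ} {F E : Finset Ω} (h : ∀ x ∈ F, ∀ y ∈ E, x < y)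
    {m : Ω} (hm : m ∈ F) (hmax : ∀ x ∈ F, x ≤ m) (hgt : g m < f m) :
    oc f g (F ∪ E) = oc f g F + oc f g E := by
  classical
  rw [oc_union h]
  congr 1
  unfold oc
  congr 1
  apply Finset.filter_congr
  intro x hx
  unfold IsOsc
  constructor
  · rintro ⟨h1, y, hy, h2, h3, h4⟩
    refine ⟨h1, y, ?_, h2, fun z hz => h3 z (Finset.mem_union_right _ hz), h4⟩
    rcases Finset.mem_union.1 hy with h5 | h5
    · have h6 := h3 m (Finset.mem_union_left _ hm) (h m hm x hx)
      have h7 : y = m := le_antisymm (hmax y h5) h6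
      subst h7
      exact absurd hgt (not_lt.2 h4)
    · exact h5
  · rintro ⟨h1, y, hy, h2, h3, h4⟩
    refine ⟨h1, y, Finset.mem_union_right _ hy, h2, fun z hz hzx => ?_, h4⟩
    rcases Finset.mem_union.1 hz with h5 | h5
    · exact (h z h5 y hy).le
    · exact h3 z h5 hzx

theorem oc_append_eq {f g : Ω → ℕ} {F E : Finset Ω} (h : ∀ x ∈ F, ∀ y ∈ E, x < y)
    (heq : ∀ x ∈ E, f x ≤ g x) : oc f g (F ∪ E) = oc f g F := by
  classical
  rw [oc_union h]
  have : E.filter (IsOsc f g (F ∪ E)) = ∅ := by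
    rw [Finset.filter_eq_empty_iff]
    intro x hx hosc
    exact absurd hosc.1 (not_lt.2 (heq x hx))
  rw [this]; simp

theorem oc_append_gt {f g : Ω → ℕ} {F E : Finset Ω} (h : ∀ x ∈ F, ∀ y ∈ E, x < y)
    {m : Ω} (hm : m ∈ F) (hmax : ∀ x ∈ F, x ≤ m) (hle : f m ≤ g m) (hE : E.Nonempty)
    (hgt : ∀ x ∈ E, g x < f x) : oc f g (F ∪ E) = oc f g F + 1 := by
  classical
  rw [oc_union h]
  congr 1
  have : E.filter (IsOsc f g (F ∪ E)) = {E.min' hE} := by
    ext x
    rw [Finset.mem_filter, Finset.mem_singleton]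
    constructor
    · rintro ⟨hx, h1, y, hy, h2, h3, h4⟩
      by_contra hne
      have hlt : E.min' hE < x := lt_of_le_of_ne (Finset.min'_le _ _ hx) (Ne.symm hne)
      have h5 := h3 (E.min' hE) (Finset.mem_union_right _ (Finset.min'_mem _ hE)) hlt
      rcases Finset.mem_union.1 hy with h6 | h6
      · exact absurd (h y h6 _ (Finset.min'_mem _ hE)) (not_lt.2 h5)
      · exact absurd (hgt y h6) (not_lt.2 h4)
    · rintro rfl
      refine ⟨Finset.min'_mem _ hE, hgt _ (Finset.min'_mem _ hE), m,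
        Finset.mem_union_left _ hm, h m hm _ (Finset.min'_mem _ hE), fun z hz hzx => ?_, hle⟩
      rcases Finset.mem_union.1 hz with h6 | h6
      · exact hmax z h6
      · exact absurd (Finset.min'_le _ _ h6) (not_le.2 hzx)
  rw [this]; simp

variable [W1 Ω]

/-- the value `osc(ξ, β)` -/
noncomputable def osc (a b : Ω) : ℕ := oc (fun x => e x a) (fun x => e x b) (L a b)

open Classical in
/-- `om b a = osc(a,b) + 1` for `a < b` and `0` otherwise -/
noncomputable def om (b a : Ω) : ℕ := if a < b then osc a b + 1 else 0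

theorem om_lt {a b : Ω} (h : a < b) : om b a = osc a b + 1 := by simp [om, h]

theorem om_ge {a b : Ω} (h : b ≤ a) : om b a = 0 := by simp [om, not_lt.2 h]

end Pool.Agent.Helper90.LSp
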