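import Pool.Agent.Helper90.LSp.Large

set_option autoImplicit false
set_option linter.unusedSectionVars false

namespace Pool.Agent.Helper90.LSp

open Set Filter Topology

variable {Ω : Type} [LinearOrder Ω] [W1 Ω]
variable {S : Set (Ω → ℝ)} {B : Set Ω} {H : Filter (Ω → ℝ)}

/-- conditions on a point `b` above `δ` -/
structure BP (B : Set Ω) (ε : ℝ) (R : Finset Ω) (v : Ω → ℕ) (N : Ω) (F : Finset Ω)
    (r : Ω → ℕ) (δ : Ω) (x : Ω → ℝ) (b : Ω) : Prop where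
  mem : b ∈ B
  le : δ ≤ b
  big : ε < |x b|
  Leq : L δ b = F
  Flt : ∀ y ∈ F, y < N
  res : res N (fun x => e x b) = r
  coh : ∀ y, N ≤ y → y < δ → e y b = e y δ
  rt : ∀ y ∈ R, om b y = v y

/-- configurations -/
structure YP (hH : HF S B H) (P : Pt Ω × Pt Ω → Prop) (mv : Pt Ω × Pt Ω → Finset Ω)
    (ε : ℝ) (R : Finset Ω) (v : Ω → ℕ) {ι : Type} (N : Ω) (T : Finset (Ω → ℕ))
    (F : ι → Finset Ω) (ρ : ι → Ω → ℕ) (p : Pt Ω) : Prop where
  lt : N < p.1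
  lar : Large hH P mv N T
  gam : Gam hH P mv N T p.1
  mem : p.2 ∈ S
  b : ∀ i, ∃ b, BP B ε R v N (F i) (ρ i) p.1 p.2 b

variable {hH : HF S B H} {P : Pt Ω × Pt Ω → Prop} {mv : Pt Ω × Pt Ω → Finset Ω}
  {ε : ℝ} {R : Finset Ω} {v : Ω → ℕ}

theorem stab (hH : HF S B H) {D : Type} {Cand : Ω → Set D} (hc : ∀ N, (Cand N).Countable)
    {Q : Ω → D → Pt Ω → Prop}
    (h : ∃ᶠ p in KF hH, ∃ N < p.1, ∃ d ∈ Cand N, Q N d p) :
    ∃ N, ∃ d ∈ Cand N, ∃ᶠ p in KF hH, N < p.1 ∧ Q N d p := by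
  have := KF_countable hH
  obtain ⟨N, hN⟩ := KF_fodor hH (Q := fun N p => ∃ d ∈ Cand N, Q N d p) h
  refine ⟨N, freq_countable (hc N) (hN.mono ?_)⟩
  rintro p ⟨h1, d, hd, h2⟩
  exact ⟨d, hd, h1, h2⟩

theorem cand_countable {ι : Type} [Finite ι] (N : Ω) :
    {d : Finset (Ω → ℕ) × Finset Ω × (ι → Ω → ℕ) | (d.1 : Set (Ω → ℕ)) ⊆ etr N ∧
      (d.2.1 : Set Ω) ⊆ Iio N ∧ ∀ i, d.2.2 i ∈ etr N}.Countable := by
  have h := (countable_finsets (etr_countable N)).prod ((countable_finsets (W1.cnt N)).prod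
    (countable_pi (fun _ : ι => etr_countable N)))
  refine h.mono ?_
  rintro ⟨a, b, c⟩ ⟨h1, h2, h3⟩
  exact ⟨h1, h2, h3⟩

open Classical in
/-- The step lemma. -/
theorem step (hmv : ∀ q, ∀ ξ ∈ mv q, q.1.1 ≤ ξ) {ι : Type} [Finite ι]
    {N : Ω} {T : Finset (Ω → ℕ)} {F : ι → Finset Ω} {ρ : ι → Ω → ℕ} (i0 : ι) (mode : Bool)
    (hfreq : ∃ᶠ p in KF hH, YP hH P mv ε R v N T F ρ p) :
    ∃ (N' : Ω) (T' : Finset (Ω → ℕ)) (D : Finset Ω) (ρ' : Option ι → Ω → ℕ),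
      N ≤ N' ∧ D.Nonempty ∧ (∀ x ∈ D, N ≤ x ∧ x < N') ∧ T'.image (res N) = T ∧
      (∀ i, res N (ρ' (some i)) = ρ i) ∧ res N (ρ' none) = ρ i0 ∧
      (∀ σ ∈ T', ∀ x ∈ D, if mode then ρ' none x < σ x else σ x = ρ' none x) ∧
      ∃ᶠ p in KF hH, YP hH P mv ε R v N' T' (fun o : Option ι => o.elim (F i0 ∪ D) F) ρ' p := by
  have hlar : Large hH P mv N T := by
    obtain ⟨p, hp⟩ := hfreq.exists
    exact hp.lar
  obtain ⟨ν0, hν0⟩ := nu0 hmv hlar
  let Q : Ω → (Finset (Ω → ℕ) × Finset Ω × (Option ι → Ω → ℕ)) → Pt Ω → Prop := fun N' d p =>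
    N ≤ N' ∧ d.2.1.Nonempty ∧ (∀ x ∈ d.2.1, N ≤ x ∧ x < N') ∧ d.1.image (res N) = T ∧
      (∀ i, res N (d.2.2 (some i)) = ρ i) ∧ res N (d.2.2 none) = ρ i0 ∧
      (∀ σ ∈ d.1, ∀ x ∈ d.2.1, if mode then d.2.2 none x < σ x else σ x = d.2.2 none x) ∧
      YP hH P mv ε R v N' d.1 (fun o : Option ι => o.elim (F i0 ∪ d.2.1) F) d.2.2 p
  suffices key : ∃ᶠ p in KF hH, ∃ N' < p.1, ∃ d ∈ {d : Finset (Ω → ℕ) × Finset Ω ×
      (Option ι → Ω → ℕ) | (d.1 : Set (Ω → ℕ)) ⊆ etr N' ∧ (d.2.1 : Set Ω) ⊆ Iio N' ∧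
      ∀ i, d.2.2 i ∈ etr N'}, Q N' d p by
    obtain ⟨N', d, _, h⟩ := stab hH (fun N' => cand_countable (ι := Option ι) N') key
    obtain ⟨p, _, h1, h2, h3, h4, h5, h6, h7, _⟩ := h.exists
    refine ⟨N', d.1, d.2.1, d.2.2, h1, h2, h3, h4, h5, h6, h7, ?_⟩
    exact h.mono fun p hp => hp.2.2.2.2.2.2.2.2
  by_contra hcon
  have hA := not_frequently.1 hcon
  -- the target set
  let G : Pt Ω → Prop := fun p => YP hH P mv ε R v N T F ρ p ∧ (¬ ∃ N' < p.1,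
    ∃ d ∈ {d : Finset (Ω → ℕ) × Finset Ω ×
      (Option ι → Ω → ℕ) | (d.1 : Set (Ω → ℕ)) ⊆ etr N' ∧ (d.2.1 : Set Ω) ⊆ Iio N' ∧
      ∀ i, d.2.2 i ∈ etr N'}, Q N' d p) ∧ (∀ ν < p.1, ∃ μ, ν < μ ∧ μ < p.1)
  have hG : ∃ᶠ p in KF hH, G p := by
    refine (hfreq.and_eventually (hA.and (KF_limit hH))).mono ?_
    rintro p ⟨h1, h2, h3⟩
    exact ⟨h1, h2, h3⟩
  let Y : Ω → Set (Ω → ℝ) := fun ν => {y | ∃ δ, ν < δ ∧ G (δ, y)}
  have hYS : ∀ ν, Y ν ⊆ S := by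
    rintro ν y ⟨δ, _, h⟩
    exact h.1.mem
  have hpos : ∀ ν, ∀ E ∈ H, (Y ν ∩ E).Nonempty := by
    intro ν
    apply KF_pos hH
    refine (hG.and_eventually (KF_gt hH ν)).mono ?_
    rintro p ⟨h1, h2⟩
    exact ⟨p.1, h2, h1⟩
  let τ : Ω → (Ω → ℝ) → Ω := fun ν y =>
    if h : ∃ δ, ν < δ ∧ G (δ, y) then Classical.choose h else ν
  have hτ : ∀ ν y, y ∈ Y ν → ν < τ ν y ∧ G (τ ν y, y) := by
    intro ν y hy
    have hy' : ∃ δ, ν < δ ∧ G (δ, y) := hy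
    have := Classical.choose_spec hy'
    simp only [τ, hy', dite_true]
    exact this
  have hgen := KF_gen' hH hYS hpos τ
  obtain ⟨⟨γ, x'⟩, hp', hgen', hlim', hNγ, hνγ⟩ := (hfreq.and_eventually
    (hgen.and ((KF_limit hH).and ((KF_gt hH N).and (KF_gt hH ν0))))).exists
  simp only at hgen' hlim' hNγ hνγ
  obtain ⟨b', hb'⟩ := hp'.b i0
  simp only at hb'
  obtain ⟨ν, hν, hνle⟩ := Cs_cof (max_lt hNγ hνγ)
  have hNν : N ≤ ν := (le_max_left _ _).trans hνle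
  have hν0ν : ν0 ≤ ν := (le_max_right _ _).trans hνle
  obtain ⟨y, hyW, hyY, hyτ⟩ := hgen' ν (Cs_lt hν) {y | ε < |y b'|}
    (isOpen_lt continuous_const (continuous_abs.comp (continuous_apply b'))) hb'.big
  have hδ := hτ ν y hyY
  set δ := τ ν y with hδdef
  obtain ⟨hνδ, hYP, hno, hlim⟩ := hδ
  simp only at hno hlim
  apply hno
  have hδb' : δ ≤ b' := hyτ.le.trans hb'.le
  set D := L δ γ with hD
  have hDν : ∀ x ∈ D, ν ≤ x := fun x hx => L_lower hyτ hx hν hνδ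
  have hDδ : ∀ x ∈ D, x < δ := fun x hx => L_lt _ _ x hx
  have hDne : D.Nonempty := L_nonempty hyτ hν hνδ
  obtain ⟨N1, hNN1, hN1δ, hN1⟩ := exists_bound_lt hlim
    ((e_fin_diff hδb').union D.finite_toSet) (by
      rintro x (hx | hx)
      · exact hx.1
      · exact hDδ x hx) hYP.lt
  have hDN1 : ∀ x ∈ D, x < N1 := fun x hx => hN1 x (Or.inr hx)
  have hcoh1 : ∀ x, N1 ≤ x → x < δ → e x δ = e x b' := by
    intro x hx hxδ
    by_contra hne
    exact absurd (hN1 x (Or.inl ⟨hxδ, hne⟩)) (not_lt.2 hx)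
  obtain ⟨T1, hT1, hL1, hmode⟩ : ∃ T1 : Finset (Ω → ℕ), T1.image (res N) = T ∧
      Large hH P mv N1 T1 ∧
      ∀ σ ∈ T1, ∀ x ∈ D, if mode then e x b' < σ x else σ x = e x b' := by
    cases mode with
    | false =>
      refine ⟨glue N N1 T (fun x => e x γ), ?_, hp'.gam N1 hNN1 (hN1δ.trans hyτ), ?_⟩
      · conv_rhs => rw [← hlar.image_res]
        unfold glue
        rw [Finset.image_image]
        congr 1
        ext σ : 1
        apply res_congr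
        intro x hx
        simp [hx]
      · intro σ hσ x hx
        simp only [glue, Finset.mem_image] at hσ
        obtain ⟨σ0, _, rfl⟩ := hσ
        have h1 : N ≤ x := hNν.trans (hDν x hx)
        simp only [not_lt.2 h1, hDN1 x hx, if_true, if_false]
        simp only [Bool.false_eq_true, if_false]
        exact (hb'.coh x h1 ((hDδ x hx).trans hyτ)).symm
    | true =>
      obtain ⟨T1, h1, h2, h3⟩ := hν0 D (fun x hx => hν0ν.trans (hDν x hx))
        (D.sup (fun x => e x b')) N1 hNN1 hDN1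
      refine ⟨T1, h1, h2, fun σ hσ x hx => ?_⟩
      simp only [if_true]
      exact lt_of_le_of_lt (Finset.le_sup (f := fun x => e x b') hx) (h3 σ hσ x hx)
  obtain ⟨N', hN1N', hN'δ, T', hT'1, hT'e, hL', hG'⟩ := claim hmv hlim hN1δ hL1
  have hNN' : N ≤ N' := hNN1.trans hN1N'
  choose bb hbb using hYP.b
  let bo : Option ι → Ω := fun o => o.elim b' bb
  let ρ' : Option ι → Ω → ℕ := fun o => res N' (fun x => e x (bo o))
  refine ⟨N', hN'δ, (T', D, ρ'), ⟨hT'e, fun x hx => (hDN1 x hx).trans_le hN1N',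
    fun i => mem_etr _ _⟩, hNN', hDne, fun x hx => ⟨hNν.trans (hDν x hx),
      (hDN1 x hx).trans_le hN1N'⟩, ?_, ?_, ?_, ?_, ?_⟩
  · simp only
    rw [← hT1, ← hT'1, Finset.image_image]
    congr 1
    ext σ : 1
    exact (res_res hNN1 σ).symm
  · intro i
    simp only [ρ', bo, Option.elim_some]
    rw [res_res hNN']
    exact (hbb i).res
  · simp only [ρ', bo, Option.elim_none]
    rw [res_res hNN']
    exact hb'.res
  · intro σ hσ x hx
    have h1 : res N1 σ ∈ T1 := by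
      rw [← hT'1]; exact Finset.mem_image_of_mem _ hσ
    have h2 := hmode _ h1 x hx
    rw [res_lt (hDN1 x hx)] at h2
    have h3 : ρ' none x = e x b' := res_lt ((hDN1 x hx).trans_le hN1N') _
    simp only [h3]
    exact h2
  · refine ⟨hN'δ, hL', hG', hYP.mem, ?_⟩
    intro o
    cases o with
    | some i =>
      refine ⟨bb i, ?_⟩
      have h := hbb i
      refine ⟨h.mem, h.le, h.big, h.Leq, fun y hy => (h.Flt y hy).trans_le hNN', rfl, ?_, h.rt⟩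
      intro z hz hzδ
      exact h.coh z (hNN'.trans hz) hzδ
    | none =>
      refine ⟨b', ?_⟩
      refine ⟨hb'.mem, hδb', hyW, ?_, ?_, rfl, ?_, hb'.rt⟩
      · simp only [Option.elim_none]
        have := L_concat hyτ hν hνδ b' hb'.le (by
          intro x hx
          rw [hb'.Leq] at hx
          exact (hb'.Flt x hx).trans_le hNν)
        rw [this, hb'.Leq]
      · intro z hz
        simp only [Option.elim_none, Finset.mem_union] at hz
        rcases hz with hz | hz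
        · exact (hb'.Flt z hz).trans_le hNN'
        · exact (hDN1 z hz).trans_le hN1N'
      · intro z hz hzδ
        exact (hcoh1 z (hN1N'.trans hz) hzδ).symm

end Pool.Agent.Helper90.LSp
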