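import Pool.Agent.Helper90.LSp.Main
import Pool.Agent.Helper90.LSp.Groth

set_option autoImplicit false
set_option linter.unusedSectionVars false

namespace Pool.Agent.Helper90.LSp

open Set Filter Topology

variable {Ω : Type} [LinearOrder Ω] [W1 Ω]

/-- the points of the `L` space -/
noncomputable def w (b : Ω) : Ω → UnitAddCircle := fun ξ => om b ξ • (th ξ : UnitAddCircle)

theorem w_ge {b ξ : Ω} (h : b ≤ ξ) : w b ξ = 0 := by
  simp [w, om_ge h]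

theorem w_lt {b ξ : Ω} (h : ξ < b) : w b ξ ≠ 0 := by
  intro h0
  rw [w, om_lt h, ← AddCircle.coe_nsmul, AddCircle.coe_eq_zero_iff] at h0
  obtain ⟨n, hn⟩ := h0
  have := th_ind {ξ} (fun _ => ((osc ξ b + 1 : ℕ) : ℤ)) n (by
    simp only [Finset.sum_singleton]
    rw [zsmul_eq_mul, nsmul_eq_mul, mul_one] at hn
    rw [hn]; push_cast; ring) ξ (Finset.mem_singleton_self _)
  have h2 : osc ξ b + 1 = 0 := by exact_mod_cast this
  omega

theorem w_inj : Function.Injective (w (Ω := Ω)) := by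
  intro b c h
  rcases lt_trichotomy b c with h1 | h1 | h1
  · have := congrFun h b
    rw [w_ge le_rfl] at this
    exact absurd this.symm (w_lt h1)
  · exact h1
  · have := congrFun h c
    rw [w_ge (le_refl c)] at this
    exact absurd this (w_lt h1)

omit [LinearOrder Ω] [W1 Ω] in
theorem exists_pos_le {r : Ω → ℝ} (s : Finset Ω) (hr : ∀ i ∈ s, 0 < r i) :
    ∃ η : ℝ, 0 < η ∧ ∀ i ∈ s, η ≤ r i := by
  classical
  induction s using Finset.induction_on with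
  | empty => exact ⟨1, one_pos, by simp⟩
  | insert a s ha ih =>
    obtain ⟨η, h1, h2⟩ := ih fun i hi => hr i (Finset.mem_insert_of_mem hi)
    refine ⟨min η (r a), lt_min h1 (hr a (Finset.mem_insert_self _ _)), ?_⟩
    intro i hi
    rcases Finset.mem_insert.1 hi with rfl | hi
    · exact min_le_right _ _
    · exact (min_le_left _ _).trans (h2 i hi)

omit [LinearOrder Ω] [W1 Ω] in
theorem nhd_basis {z : Ω → UnitAddCircle} {V : Set (Ω → UnitAddCircle)} (hV : V ∈ 𝓝 z) :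
    ∃ (a : Finset Ω) (η : ℝ), 0 < η ∧ ∀ y, (∀ ξ ∈ a, ‖y ξ - z ξ‖ < η) → y ∈ V := by
  classical
  rw [nhds_pi, Filter.mem_pi] at hV
  obtain ⟨I, hI, t, ht, hsub⟩ := hV
  have h1 : ∀ i, ∃ r : ℝ, 0 < r ∧ Metric.ball (z i) r ⊆ t i := fun i =>
    Metric.mem_nhds_iff.1 (ht i)
  choose r hr0 hr using h1
  obtain ⟨η, hη, hηr⟩ := exists_pos_le (r := r) hI.toFinset fun i _ => hr0 i
  refine ⟨hI.toFinset, η, hη, fun y hy => hsub fun i hi => hr i ?_⟩
  rw [Metric.mem_ball, dist_eq_norm]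
  exact (hy i (hI.mem_toFinset.2 hi)).trans_le (hηr i (hI.mem_toFinset.2 hi))

omit [LinearOrder Ω] [W1 Ω] in
theorem basic_open (z : Ω → UnitAddCircle) (a : Finset Ω) (η : ℝ) :
    IsOpen {y : Ω → UnitAddCircle | ∀ ξ ∈ a, ‖y ξ - z ξ‖ < η} := by
  have : {y : Ω → UnitAddCircle | ∀ ξ ∈ a, ‖y ξ - z ξ‖ < η} =
      ⋂ ξ ∈ a, {y : Ω → UnitAddCircle | ‖y ξ - z ξ‖ < η} := by
    ext y; simp
  rw [this]
  apply isOpen_biInter_finset
  intro ξ _
  exact isOpen_lt (continuous_norm.comp ((continuous_apply ξ).sub continuous_const))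
    continuous_const

/-- The Lindelöf property -/
theorem lind (B : Set Ω) (U : Ω → Set (Ω → UnitAddCircle)) (hU : ∀ b, IsOpen (U b))
    (hbU : ∀ b ∈ B, w b ∈ U b) : ∃ α, ∀ g ∈ B, ∃ b ∈ B, b < α ∧ w g ∈ U b := by
  classical
  by_contra hcon
  push Not at hcon
  let X : Ω → (Ω → ℝ) := fun α g => if g ∈ B ∧ ∀ b ∈ B, b < α → w g ∉ U b then 1 else 0
  have hX1 : ∀ α g, g ∈ B → (∀ b ∈ B, b < α → w g ∉ U b) → X α g = 1 := by
    intro α g h1 h2
    exact if_pos ⟨h1, h2⟩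
  have hX0 : ∀ α g b, b ∈ B → b < α → w g ∈ U b → X α g = 0 := by
    intro α g b h1 h2 h3
    exact if_neg fun h => h.2 b h1 h2 h3
  have hXn : ∀ α g, g ∉ B → X α g = 0 := by
    intro α g h1
    exact if_neg fun h => h1 h.1
  refine MT th_ind (S := range X) (B := B) ?_ ?_ ?_ ?_
  · intro y hy
    choose α hα using hy
    have hne : {β | ∃ᶠ n in atTop, α n ≤ β}.Nonempty := by
      obtain ⟨b, hb⟩ := exists_gt_seq α
      exact ⟨b, Frequently.of_forall fun n => (hb n).le⟩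
    set Lm := wellFounded_lt.min _ hne with hLm
    have hLm1 : ∃ᶠ n in atTop, α n ≤ Lm := wellFounded_lt.min_mem _ hne
    have hLm2 : ∀ b < Lm, ∀ᶠ n in atTop, b < α n := by
      intro b hb
      by_contra h
      refine wellFounded_lt.not_lt_min _ (show b ∈ {β | ∃ᶠ n in atTop, α n ≤ β} from ?_) hb
      exact (not_eventually.1 h).mono fun n hn => not_lt.1 hn
    refine ⟨X Lm, ⟨Lm, rfl⟩, mapClusterPt_iff_frequently.2 fun V hV => ?_⟩
    rw [nhds_pi, Filter.mem_pi] at hV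
    obtain ⟨I, hI, t, ht, hsub⟩ := hV
    have h1 : ∀ g ∈ I, ∀ᶠ n in atTop, α n ≤ Lm → y n g = X Lm g := by
      intro g _
      by_cases hgB : g ∈ B
      · by_cases hg : ∀ b ∈ B, b < Lm → w g ∉ U b
        · refine Eventually.of_forall fun n hn => ?_
          rw [← hα n, hX1 Lm g hgB hg]
          exact hX1 _ g hgB fun b hb hbα => hg b hb (hbα.trans_le hn)
        · push Not at hg
          obtain ⟨b, hb, hbL, hbU⟩ := hg
          filter_upwards [hLm2 b hbL] with n hn _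
          rw [← hα n, hX0 Lm g b hb hbL hbU]
          exact hX0 _ g b hb hn hbU
      · refine Eventually.of_forall fun n _ => ?_
        rw [← hα n, hXn _ g hgB, hXn _ g hgB]
    have h2 : ∀ᶠ n in atTop, ∀ g ∈ I, α n ≤ Lm → y n g = X Lm g :=
      (eventually_all_finite hI).2 h1
    refine (hLm1.and_eventually h2).mono ?_
    rintro n ⟨h3, h4⟩
    apply hsub
    intro g hg
    rw [h4 g hg h3]
    exact mem_of_mem_nhds (ht g)
  · rintro _ ⟨α, rfl⟩ b hb hb0 ε hε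
    have h1 : ∃ b' ∈ B, b' < α ∧ w b ∈ U b' := by
      by_contra h
      push Not at h
      rw [hX1 α b hb h] at hb0
      exact one_ne_zero hb0
    obtain ⟨b', hb', hb'α, hbU'⟩ := h1
    obtain ⟨a, η, hη, h2⟩ := nhd_basis ((hU b').mem_nhds hbU')
    refine ⟨a, η, hη, fun g hg hclose => ?_⟩
    rw [hX0 α g b' hb' hb'α (h2 _ hclose), abs_zero]
    exact hε
  · rintro _ ⟨α, rfl⟩
    obtain ⟨g, hg, h⟩ := hcon α
    exact ⟨g, hg, by rw [hX1 α g hg h]; exact one_ne_zero⟩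
  · intro N hN
    obtain ⟨α, hα⟩ := exists_gt_of_countable hN
    exact ⟨X α, ⟨α, rfl⟩, fun b hb hbB => hX0 α b b hbB (hα b hb) (hbU b hbB)⟩

/-- countable tightness -/
theorem tight0 (b : Ω) (D : Set Ω)
    (hD : ∀ (a : Finset Ω) (η : ℝ), 0 < η → ∃ d ∈ D, ∀ ξ ∈ a, ‖w d ξ - w b ξ‖ < η) :
    ∃ D0 ⊆ D, D0.Countable ∧
      ∀ (a : Finset Ω) (η : ℝ), 0 < η → ∃ d ∈ D0, ∀ ξ ∈ a, ‖w d ξ - w b ξ‖ < η := by
  classical
  choose d hd hdc using fun (a : Finset Ω) (k : ℕ) => hD a (1 / ((k : ℝ) + 1))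
    Nat.one_div_pos_of_nat
  have hG : ∀ α : Ω, ∃ β, α < β ∧ ∀ a : Finset Ω, (∀ x ∈ a, x ≤ α) → ∀ k, d a k < β := by
    intro α
    have h1 : (insert α ((fun q : Finset Ω × ℕ => d q.1 q.2) ''
        ({a : Finset Ω | (a : Set Ω) ⊆ Iic α} ×ˢ (univ : Set ℕ)))).Countable :=
      (((countable_finsets (Iic_countable α)).prod countable_univ).image _).insert _
    obtain ⟨β, hβ⟩ := exists_gt_of_countable h1
    refine ⟨β, hβ α (mem_insert _ _), fun a ha k => ?_⟩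
    exact hβ _ (mem_insert_of_mem _ ⟨(a, k), ⟨fun x hx => ha x hx, mem_univ _⟩, rfl⟩)
  choose G hG1 hG2 using hG
  let s : ℕ → Ω := fun n => Nat.rec b (fun _ x => G x) n
  have hs : ∀ n, s (n + 1) = G (s n) := fun n => rfl
  have hsm : StrictMono s := strictMono_nat_of_lt_succ fun n => by rw [hs]; exact hG1 _
  obtain ⟨α, hα1, hα2⟩ := exists_lsub s
  have hbα : b < α := hα1 0
  refine ⟨(fun q : Finset Ω × ℕ => d q.1 q.2) ''
        ({a : Finset Ω | (a : Set Ω) ⊆ Iio α} ×ˢ (univ : Set ℕ)), ?_, ?_, ?_⟩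
  · rintro _ ⟨⟨a, k⟩, _, rfl⟩
    exact hd a k
  · exact ((countable_finsets (W1.cnt α)).prod countable_univ).image _
  · intro a η hη
    obtain ⟨k, hk⟩ := exists_nat_one_div_lt hη
    let a' := a.filter fun x => x < α
    have h1 : ∃ n, ∀ x ∈ a', x ≤ s n := by
      have : ∀ x ∈ a', ∃ n, x ≤ s n := fun x hx => hα2 x (Finset.mem_filter.1 hx).2
      choose! n hn using this
      refine ⟨a'.sup n, fun x hx => (hn x hx).trans (hsm.monotone (Finset.le_sup hx))⟩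
    obtain ⟨n, hn⟩ := h1
    refine ⟨d a' k, ⟨(a', k), ⟨fun x hx => (Finset.mem_filter.1 hx).2, mem_univ _⟩, rfl⟩, ?_⟩
    intro ξ hξ
    rcases lt_or_ge ξ α with h | h
    · exact (hdc a' k ξ (Finset.mem_filter.2 ⟨hξ, h⟩)).trans hk
    · have h2 : d a' k < α := (hG2 (s n) a' hn k).trans (by rw [← hs]; exact hα1 (n + 1))
      rw [w_ge (h2.le.trans h), w_ge (hbα.le.trans h), sub_zero, norm_zero]
      exact hη

section

variable (Ω) in
/-- the `L` space -/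
def XL : Type := Ω

/-- the embedding in the torus -/
noncomputable def emb (x : XL Ω) : Ω → UnitAddCircle := w (show Ω from x)

noncomputable instance : TopologicalSpace (XL Ω) :=
  TopologicalSpace.induced emb inferInstance

theorem emb_ind : IsInducing (emb (Ω := Ω)) := ⟨rfl⟩

theorem emb_emb : IsEmbedding (emb (Ω := Ω)) := ⟨emb_ind, fun _ _ h => w_inj (Ω := Ω) h⟩

theorem XL_t35 : T35Space (XL Ω) := (emb_emb (Ω := Ω)).t35Space

theorem XL_nonsep : ¬ TopologicalSpace.SeparableSpace (XL Ω) := by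
  intro h
  obtain ⟨D, hD, hDd⟩ := h.exists_countable_dense
  obtain ⟨α, hα⟩ := exists_gt_of_countable (Ω := Ω) (A := D) hD
  obtain ⟨c, hc⟩ := exists_gt α
  have hopen : IsOpen {x : XL Ω | emb x α ≠ 0} :=
    (isOpen_compl_singleton (x := (0 : UnitAddCircle))).preimage
      ((continuous_apply α).comp emb_ind.continuous)
  obtain ⟨d, hdD, hd⟩ := hDd.inter_open_nonempty _ hopen ⟨(c : XL Ω), w_lt hc⟩
  exact hdD (w_ge (hα d hd).le)

variable (Z : Set (XL Ω))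

theorem sub_ind : IsInducing (fun z : Z => emb z.1) := emb_ind.comp IsInducing.subtypeVal

theorem sub_nhd {z : Z} {V : Set Z} (hV : V ∈ 𝓝 z) : ∃ (a : Finset Ω) (η : ℝ), 0 < η ∧
    ∀ y : Z, (∀ ξ ∈ a, ‖emb y.1 ξ - emb z.1 ξ‖ < η) → y ∈ V := by
  rw [(sub_ind Z).nhds_eq_comap, mem_comap] at hV
  obtain ⟨W, hW, hWV⟩ := hV
  obtain ⟨a, η, hη, h⟩ := nhd_basis hW
  exact ⟨a, η, hη, fun y hy => hWV (h _ hy)⟩

theorem sub_nhd' (z : Z) (a : Finset Ω) {η : ℝ} (hη : 0 < η) :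
    {y : Z | ∀ ξ ∈ a, ‖emb y.1 ξ - emb z.1 ξ‖ < η} ∈ 𝓝 z := by
  rw [(sub_ind Z).nhds_eq_comap]
  refine ⟨_, (basic_open (emb z.1) a η).mem_nhds (by simp [hη]), fun y hy => hy⟩

theorem sub_tight (b : Z) (D : Set Z) (hb : b ∈ closure D) :
    ∃ D0 ⊆ D, D0.Countable ∧ b ∈ closure D0 := by
  obtain ⟨D0, hD0, hc, h⟩ := tight0 (Ω := Ω) (b.1 : Ω) ((fun z : Z => (z.1 : Ω)) '' D) (by
    intro a η hη
    rw [mem_closure_iff_nhds] at hb
    obtain ⟨d, hd1, hd2⟩ := hb _ (sub_nhd' Z b a hη)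
    exact ⟨d.1, ⟨d, hd2, rfl⟩, hd1⟩)
  refine ⟨(fun z : Z => (z.1 : Ω)) ⁻¹' D0, ?_, ?_, ?_⟩
  · intro z hz
    obtain ⟨z', hz', he⟩ := hD0 hz
    have : z' = z := Subtype.ext he
    rwa [← this]
  · exact hc.preimage Subtype.val_injective
  · rw [mem_closure_iff_nhds]
    intro V hV
    obtain ⟨a, η, hη, h2⟩ := sub_nhd Z hV
    obtain ⟨d, hd, hdc⟩ := h a η hη
    obtain ⟨z, hz, he⟩ := hD0 hd
    refine ⟨z, h2 z ?_, ?_⟩
    · intro ξ hξ
      have := hdc ξ hξ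
      rw [← he] at this
      exact this
    · change (z.1 : Ω) ∈ D0
      have he' : (z.1 : Ω) = d := he
      rw [he']; exact hd

theorem dep1 {g : Z → ℝ} (hg : Continuous g) :
    ∃ α : Ω, ∀ b c : Z, (∀ ξ < α, emb b.1 ξ = emb c.1 ξ) → g b = g c := by
  classical
  have h1 : ∀ n : ℕ, ∃ α : Ω, ∀ b c : Z, (∀ ξ < α, emb b.1 ξ = emb c.1 ξ) →
      |g b - g c| < 2 * (1 / ((n : ℝ) + 1)) := by
    intro n
    have hpos : (0 : ℝ) < 1 / ((n : ℝ) + 1) := Nat.one_div_pos_of_nat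
    have h2 : ∀ b : Ω, ∃ (a : Finset Ω) (η : ℝ), 0 < η ∧ ∀ hb : b ∈ (Z : Set Ω), ∀ y : Z,
        (∀ ξ ∈ a, ‖emb y.1 ξ - w b ξ‖ < η) → |g y - g ⟨b, hb⟩| < 1 / ((n : ℝ) + 1) := by
      intro b
      by_cases hb : b ∈ (Z : Set Ω)
      · obtain ⟨a, η, hη, h3⟩ := sub_nhd Z (Metric.continuousAt_iff'.1
          (hg.continuousAt (x := (⟨b, hb⟩ : Z))) _ hpos)
        exact ⟨a, η, hη, fun _ y hy => h3 y hy⟩
      · exact ⟨∅, 1, one_pos, fun h => absurd h hb⟩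
    choose a η hη h3 using h2
    obtain ⟨α, hα⟩ := lind (Ω := Ω) (Z : Set Ω) (fun b => {y | ∀ ξ ∈ a b, ‖y ξ - w b ξ‖ < η b})
      (fun b => basic_open _ _ _) (fun b _ => by simp [hη])
    obtain ⟨β, hβ⟩ := exists_gt_of_countable (Ω := Ω) (A := ⋃ b ∈ Iio α, (a b : Set Ω))
      ((W1.cnt α).biUnion fun b _ => (a b).countable_toSet)
    refine ⟨β, fun x y hxy => ?_⟩
    obtain ⟨b, hbZ, hbα, hxb⟩ := hα (x.1 : Ω) x.2
    have h4 := h3 b hbZ x hxb
    have h5 := h3 b hbZ y (by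
      intro ξ hξ
      have hξβ : ξ < β := hβ ξ (by
        simp only [mem_iUnion]
        exact ⟨b, hbα, hξ⟩)
      rw [← hxy ξ hξβ]
      exact hxb ξ hξ)
    rw [abs_lt] at h4 h5 ⊢
    constructor <;> linarith [h4.1, h4.2, h5.1, h5.2]
  choose α hα using h1
  obtain ⟨β, hβ⟩ := exists_gt_seq α
  refine ⟨β, fun b c hbc => ?_⟩
  by_contra hne
  have hpos : 0 < |g b - g c| / 2 := by
    have := abs_pos.2 (sub_ne_zero.2 hne)
    linarith
  obtain ⟨n, hn⟩ := exists_nat_one_div_lt hpos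
  have := hα n b c fun ξ hξ => hbc ξ (hξ.trans (hβ n))
  linarith

theorem sub_CI (A0 : Set (Z → ℝ)) (hA : A0.Countable) (hc : ∀ g ∈ A0, Continuous g) :
    ∃ N : Set Z, N.Countable ∧ ∀ b, ∃ c ∈ N, ∀ g ∈ A0, g b = g c := by
  classical
  have h1 : ∀ g : Z → ℝ, ∃ α : Ω, g ∈ A0 → ∀ b c : Z, (∀ ξ < α, emb b.1 ξ = emb c.1 ξ) →
      g b = g c := by
    intro g
    by_cases hg : g ∈ A0
    · obtain ⟨α, hα⟩ := dep1 Z (hc g hg)
      exact ⟨α, fun _ => hα⟩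
    · exact ⟨Classical.arbitrary Ω, fun h => absurd h hg⟩
  choose α hα using h1
  obtain ⟨β, hβ⟩ := exists_gt_of_countable (hA.image α)
  -- traces
  let tr : Z → (Ω → ℕ) := fun z => res β (om (z.1 : Ω))
  have htr : (range tr).Countable := (om_trace β).mono (by
    rintro _ ⟨z, rfl⟩
    exact ⟨z.1, rfl⟩)
  have hrep0 : ∀ f : range tr, ∃ z : Z, tr z = f.1 := fun f => f.2
  choose rep hrep using hrep0
  have : Countable (range tr) := htr.to_subtype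
  refine ⟨range rep, countable_range rep, fun b => ⟨rep ⟨tr b, ⟨b, rfl⟩⟩, ⟨_, rfl⟩, ?_⟩⟩
  intro g hg
  apply hα g hg
  intro ξ hξ
  have hξβ : ξ < β := hξ.trans (hβ _ ⟨g, hg, rfl⟩)
  have h2 := congrFun (hrep ⟨tr b, ⟨b, rfl⟩⟩) ξ
  simp only [tr] at h2
  rw [res_lt hξβ, res_lt hξβ] at h2
  change om (Ω := Ω) b.1 ξ • (th ξ : UnitAddCircle) =
    om (Ω := Ω) (rep ⟨tr b, ⟨b, rfl⟩⟩).1 ξ • (th ξ : UnitAddCircle)
  rw [← h2]

theorem sub_MT (S : Set (Z → ℝ)) (h0 : ∀ x ∈ S, Continuous x)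
    (h1 : ∀ y : ℕ → (Z → ℝ), (∀ n, y n ∈ S) → ∃ x ∈ S, MapClusterPt x atTop y)
    (h3 : ∀ x ∈ S, ∃ b, x b ≠ 0)
    (h4 : ∀ N : Set Z, N.Countable → ∃ x ∈ S, ∀ b ∈ N, x b = 0) : False := by
  classical
  let ext : (Z → ℝ) → (Ω → ℝ) := fun x b => if h : b ∈ (Z : Set Ω) then x ⟨b, h⟩ else 0
  have hext : Continuous ext := by
    refine continuous_pi fun b => ?_
    by_cases h : b ∈ (Z : Set Ω)
    · simp only [ext, h, dite_true]
      exact continuous_apply _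
    · simp only [ext, h, dite_false]
      exact continuous_const
  have hextz : ∀ (x : Z → ℝ) (b : Ω) (hb : b ∈ (Z : Set Ω)), ext x b = x ⟨b, hb⟩ := by
    intro x b hb; simp [ext, hb]
  refine MT th_ind (S := ext '' S) (B := (Z : Set Ω)) ?_ ?_ ?_ ?_
  · intro y hy
    choose x hx hxy using hy
    obtain ⟨p, hp, hcl⟩ := h1 x hx
    refine ⟨ext p, ⟨p, hp, rfl⟩, ?_⟩
    have h2 : MapClusterPt (ext p) atTop (ext ∘ x) := hcl.continuousAt_comp hext.continuousAt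
    have h5 : ext ∘ x = y := by
      ext n : 1
      exact hxy n
    rwa [h5] at h2
  · rintro _ ⟨x, hx, rfl⟩ b hb hb0 ε hε
    rw [hextz x b hb] at hb0
    obtain ⟨a, η, hη, h⟩ := sub_nhd Z (Metric.continuousAt_iff'.1
      ((h0 x hx).continuousAt (x := (⟨b, hb⟩ : Z))) ε hε)
    refine ⟨a, η, hη, fun g hg hclose => ?_⟩
    have h2 := h ⟨g, hg⟩ hclose
    rw [hextz x g hg]
    simp only [mem_ofPred_eq, hb0, Real.dist_eq, sub_zero] at h2
    exact h2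
  · rintro _ ⟨x, hx, rfl⟩
    obtain ⟨b, hb⟩ := h3 x hx
    exact ⟨b.1, b.2, by rw [hextz x b.1 b.2]; exact hb⟩
  · intro N hN
    obtain ⟨x, hx, h⟩ := h4 ((fun z : Z => (z.1 : Ω)) ⁻¹' N)
      (hN.preimage Subtype.val_injective)
    refine ⟨ext x, ⟨x, hx, rfl⟩, fun b hb hbZ => ?_⟩
    rw [hextz x b hbZ]
    exact h ⟨b, hbZ⟩ hb

theorem XL_groth (Y : Set {f : Z → ℝ // Continuous f}) (A : Set Y)
    (hA : ∀ E ⊆ A, E.Infinite → ∃ p : Y, AccPt p (𝓟 E)) : IsCompact (closure A) :=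
  groth_of (sub_tight Z) (sub_CI Z) (sub_MT Z) Y A hA

end

end Pool.Agent.Helper90.LSp
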